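import Pool.Agent.W_MP_1759d0_gt.HopfRinow

/-! # Smooth cutoff functions on a complete conformal plane -/

namespace Pool.Agent.W_MP_1759d0_gt

open Filter Set MeasureTheory Bornology
open scoped Topology ContDiff Convolution

variable {lam : ℂ → ℝ}

/-- Existence of a `C¹` compactly supported cutoff function, equal to one on a given disc, with
gradient controlled by the (complete) metric. -/
theorem exists_cutoff (hl : Continuous lam) (hpos : ∀ z, 0 < lam z)
    (hcomp : IsGComplete lam) (R : ℝ) :
    ∃ η : ℂ → ℝ, ContDiff ℝ 1 η ∧ HasCompactSupport η ∧ (∀ z, 0 ≤ η z) ∧ (∀ z, η z ≤ 1) ∧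
      (∀ z, ‖z‖ ≤ R → η z = 1) ∧ ∀ z, ‖fderiv ℝ η z‖ ≤ Real.sqrt (lam z) := by
  have hδ : Continuous (gDist lam 0) := continuous_gDist hl 0
  -- bound of the distance on the disc
  obtain ⟨T₀, hT₀⟩ := (isCompact_closedBall (0:ℂ) (R + 1)).exists_bound_of_continuousOn
    hδ.continuousOn
  set T : ℝ := max T₀ 2 with hT
  have hT2 : 2 ≤ T := le_max_right _ _
  have hTpos : 0 < T := by linarith
  -- the Lipschitz cutoff
  set η₀ : ℂ → ℝ := fun z => max 0 (min 1 (2 - gDist lam 0 z / T)) with hη₀
  have hη₀c : Continuous η₀ := by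
    exact continuous_const.max (continuous_const.min (continuous_const.sub (hδ.div_const T)))
  have hη₀0 : ∀ z, 0 ≤ η₀ z := fun z => le_max_left _ _
  have hη₀1 : ∀ z, η₀ z ≤ 1 := fun z => max_le zero_le_one (min_le_left _ _)
  have hη₀one : ∀ z, ‖z‖ ≤ R + 1 → η₀ z = 1 := by
    intro z hz
    have h1 := hT₀ z (by simpa using hz)
    rw [Real.norm_eq_abs] at h1
    have h2 : gDist lam 0 z ≤ T := (le_abs_self _).trans (h1.trans (le_max_left _ _))
    have h3 : gDist lam 0 z / T ≤ 1 := by rw [div_le_one hTpos]; exact h2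
    simp only [hη₀]
    rw [min_eq_left (by linarith), max_eq_right zero_le_one]
  -- bounded support
  obtain ⟨R', hR'⟩ := (isBounded_ball_of_complete hl hpos hcomp 0 (2 * T)).subset_closedBall 0
  have hη₀supp : ∀ z, R' < ‖z‖ → η₀ z = 0 := by
    intro z hz
    have h1 : ¬ gDist lam 0 z < 2 * T := by
      intro h
      have := hR' h
      rw [mem_closedBall_zero_iff] at this
      linarith
    have h2 : 2 ≤ gDist lam 0 z / T := by
      rw [le_div_iff₀ hTpos]
      linarith
    simp only [hη₀]
    rw [max_eq_left]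
    exact (min_le_right _ _).trans (by linarith)
  have hη₀lip : ∀ x y, |η₀ y - η₀ x| ≤ (1 / T) * gDist lam x y := by
    intro x y
    have h1 : |η₀ y - η₀ x| ≤ |(2 - gDist lam 0 y / T) - (2 - gDist lam 0 x / T)| := by
      have g1 := abs_max_sub_max_le_max (0:ℝ) (min 1 (2 - gDist lam 0 y / T)) 0
        (min 1 (2 - gDist lam 0 x / T))
      have g2 := abs_min_sub_min_le_max (1:ℝ) (2 - gDist lam 0 y / T) 1
        (2 - gDist lam 0 x / T)
      rw [sub_self, abs_zero] at g1 g2
      have e1 : max 0 |min 1 (2 - gDist lam 0 y / T) - min 1 (2 - gDist lam 0 x / T)|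
          = |min 1 (2 - gDist lam 0 y / T) - min 1 (2 - gDist lam 0 x / T)| :=
        max_eq_right (abs_nonneg _)
      have e2 : max 0 |2 - gDist lam 0 y / T - (2 - gDist lam 0 x / T)|
          = |2 - gDist lam 0 y / T - (2 - gDist lam 0 x / T)| :=
        max_eq_right (abs_nonneg _)
      rw [e1] at g1
      rw [e2] at g2
      exact g1.trans g2
    refine h1.trans ?_
    have h2 : (2 - gDist lam 0 y / T) - (2 - gDist lam 0 x / T)
        = (1 / T) * (gDist lam 0 x - gDist lam 0 y) := by ring
    rw [h2, abs_mul, abs_of_pos (by positivity : 0 < 1 / T)]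
    apply mul_le_mul_of_nonneg_left _ (by positivity)
    rw [abs_le]
    have t1 := gDist_triangle hl 0 x y
    have t2 := gDist_triangle hl 0 y x
    rw [gDist_comm y x] at t2
    constructor <;> linarith
  -- uniform comparison of the metric at nearby points
  set K : Set ℂ := Metric.closedBall (0:ℂ) (R' + 3) with hK
  have hKc : IsCompact K := isCompact_closedBall _ _
  have hρc : Continuous (fun z => Real.sqrt (lam z)) := hl.sqrt
  obtain ⟨m, hm, hmK⟩ : ∃ m : ℝ, 0 < m ∧ ∀ z ∈ K, m ≤ Real.sqrt (lam z) := by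
    rcases K.eq_empty_or_nonempty with h | h
    · exact ⟨1, one_pos, by simp [h]⟩
    · obtain ⟨z₀, hz₀, hmin⟩ := hKc.exists_isMinOn h hρc.continuousOn
      exact ⟨Real.sqrt (lam z₀), Real.sqrt_pos.mpr (hpos z₀), fun z hz => hmin hz⟩
  have hunif := hKc.uniformContinuousOn_of_continuous hρc.continuousOn
  rw [Metric.uniformContinuousOn_iff] at hunif
  obtain ⟨ε₀, hε₀, hunif⟩ := hunif m hm
  set ε : ℝ := min (1 / 2) (ε₀ / 4) with hε
  have hεpos : 0 < ε := by positivity
  have hε1 : ε ≤ 1 / 2 := min_le_left _ _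
  have hε2 : ε ≤ ε₀ / 4 := min_le_right _ _
  -- the smooth kernel
  let φ : ContDiffBump (0:ℂ) := ⟨ε / 2, ε, by positivity, by linarith⟩
  have hφout : φ.rOut = ε := rfl
  set η : ℂ → ℝ := (φ.normed volume ⋆[ContinuousLinearMap.lsmul ℝ ℝ, volume] η₀) with hη
  have hηeq : ∀ x, η x = ∫ t, φ.normed volume t * η₀ (x - t) := by
    intro x
    rfl
  have hint : ∀ x, Integrable (fun t => φ.normed volume t * η₀ (x - t)) := by
    intro x
    apply (φ.integrable_normed (μ := volume)).mul_bdd (c := 1)
    · exact (hη₀c.comp (continuous_const.sub continuous_id)).aestronglyMeasurable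
    · refine Eventually.of_forall (fun t => ?_)
      rw [Real.norm_eq_abs, abs_of_nonneg (hη₀0 _)]
      exact hη₀1 _
  -- comparison of values
  have hdiff : ∀ x x' : ℂ, ∀ B : ℝ, 0 ≤ B → (∀ t : ℂ, ‖t‖ < ε → |η₀ (x' - t) - η₀ (x - t)| ≤ B) →
      |η x' - η x| ≤ B := by
    intro x x' B hB hb
    rw [hηeq, hηeq, ← integral_sub (hint x') (hint x)]
    have h1 : ‖∫ t, (φ.normed volume t * η₀ (x' - t) - φ.normed volume t * η₀ (x - t))‖
        ≤ ∫ t, φ.normed volume t * B := by
      apply norm_integral_le_of_norm_le ((φ.integrable_normed (μ := volume)).mul_const B)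
      refine Eventually.of_forall (fun t => ?_)
      rw [← mul_sub, norm_mul, Real.norm_eq_abs, Real.norm_eq_abs,
        abs_of_nonneg (φ.nonneg_normed t)]
      by_cases ht : ‖t‖ < ε
      · exact mul_le_mul_of_nonneg_left (hb t ht) (φ.nonneg_normed t)
      · have : φ.normed volume t = 0 := by
          have h3 : t ∉ Function.support (φ.normed volume) := by
            rw [φ.support_normed_eq, mem_ball_zero_iff]
            exact ht
          simpa [Function.mem_support] using h3
        rw [this]
        simp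
    rw [integral_mul_const, φ.integral_normed, one_mul, Real.norm_eq_abs] at h1
    exact h1
  refine ⟨η, ?_, ?_, ?_, ?_, ?_, ?_⟩
  · exact φ.hasCompactSupport_normed.contDiff_convolution_left _ φ.contDiff_normed
      hη₀c.locallyIntegrable
  · apply HasCompactSupport.convolution _ φ.hasCompactSupport_normed
    apply HasCompactSupport.intro (isCompact_closedBall (0:ℂ) R')
    intro z hz
    apply hη₀supp
    simpa using hz
  · intro z
    rw [hηeq]
    apply integral_nonneg
    intro t
    exact mul_nonneg (φ.nonneg_normed t) (hη₀0 _)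
  · intro z
    rw [hηeq]
    have h1 : ∫ t, φ.normed volume t * η₀ (z - t) ≤ ∫ t, φ.normed volume t := by
      apply integral_mono (hint z) (φ.integrable_normed (μ := volume))
      intro t
      exact mul_le_of_le_one_right (φ.nonneg_normed t) (hη₀1 _)
    rwa [φ.integral_normed] at h1
  · intro z hz
    have h1 : η z = η₀ z := by
      apply φ.normed_convolution_eq_right
      intro x hx
      rw [hφout, Metric.mem_ball, dist_eq_norm] at hx
      rw [hη₀one z (by linarith), hη₀one x]
      have : ‖x‖ ≤ ‖x - z‖ + ‖z‖ := by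
        calc ‖x‖ = ‖(x - z) + z‖ := by ring_nf
          _ ≤ _ := norm_add_le _ _
      linarith
    rw [h1, hη₀one z (by linarith)]
  · intro x
    apply norm_fderiv_le_of_lip' ℝ (Real.sqrt_nonneg _)
    filter_upwards [Metric.ball_mem_nhds x hεpos] with x' hx'
    rw [Metric.mem_ball, dist_eq_norm] at hx'
    rw [Real.norm_eq_abs]
    apply hdiff x x' _ (by positivity)
    intro t ht
    by_cases hx : ‖x‖ ≤ R' + 2
    · refine (hη₀lip _ _).trans ?_
      have hbound : ∀ z ∈ segment ℝ (x - t) (x' - t), Real.sqrt (lam z) ≤ 2 * Real.sqrt (lam x) := by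
        intro z hz
        have hz1 : z ∈ Metric.ball x (2 * ε) := by
          apply (convex_ball x (2 * ε)).segment_subset _ _ hz
          · rw [Metric.mem_ball, dist_eq_norm]
            simp only [sub_sub_cancel_left, norm_neg]
            linarith
          · rw [Metric.mem_ball, dist_eq_norm]
            calc ‖x' - t - x‖ = ‖(x' - x) - t‖ := by ring_nf
              _ ≤ ‖x' - x‖ + ‖t‖ := norm_sub_le _ _
              _ < 2 * ε := by linarith
        rw [Metric.mem_ball] at hz1
        have hxK : x ∈ K := by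
          rw [hK, mem_closedBall_zero_iff]
          linarith
        have hzK : z ∈ K := by
          rw [hK, mem_closedBall_zero_iff]
          rw [dist_eq_norm] at hz1
          calc ‖z‖ = ‖(z - x) + x‖ := by ring_nf
            _ ≤ ‖z - x‖ + ‖x‖ := norm_add_le _ _
            _ ≤ R' + 3 := by linarith
        have h1 := hunif z hzK x hxK (by linarith)
        rw [Real.dist_eq, abs_lt] at h1
        have h2 := hmK x hxK
        linarith [h1.2]
      have h1 := gDist_le_of_bound hbound hl
      have h2 : x' - t - (x - t) = x' - x := by ring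
      rw [h2] at h1
      calc (1 / T) * gDist lam (x - t) (x' - t)
          ≤ (1 / T) * (2 * Real.sqrt (lam x) * ‖x' - x‖) := by
            apply mul_le_mul_of_nonneg_left h1 (by positivity)
        _ ≤ (1 / 2) * (2 * Real.sqrt (lam x) * ‖x' - x‖) := by
            apply mul_le_mul_of_nonneg_right _ (by positivity)
            exact one_div_le_one_div_of_le (by norm_num) hT2
        _ = Real.sqrt (lam x) * ‖x' - x‖ := by ring
    · push Not at hx
      have hxt : R' < ‖x - t‖ := by
        have := norm_sub_norm_le x t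
        linarith
      have hxt' : R' < ‖x' - t‖ := by
        have h1 : ‖x‖ ≤ ‖x' - x‖ + ‖x' - t‖ + ‖t‖ := by
          calc ‖x‖ = ‖-(x' - x) + (x' - t) + t‖ := by ring_nf
            _ ≤ ‖-(x' - x) + (x' - t)‖ + ‖t‖ := norm_add_le _ _
            _ ≤ ‖-(x' - x)‖ + ‖x' - t‖ + ‖t‖ := by gcongr; exact norm_add_le _ _
            _ = _ := by rw [norm_neg]
        linarith
      rw [hη₀supp _ hxt, hη₀supp _ hxt']
      simp only [sub_self, abs_zero]
      positivity

end Pool.Agent.W_MP_1759d0_gt
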