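import Pool.Agent.W_MP_1759d0_gt.Main
import Pool.Agent.W_MP_1759d0_gt.Cutoff

/-! # The lower bound of the metric and of the distance -/

namespace Pool.Agent.W_MP_1759d0_gt

open Filter Set MeasureTheory Complex
open scoped Topology ContDiff Real

/-! ### The weight -/

/-- The weight. -/
noncomputable def wt (s₁ s : ℝ) : ℝ := (1 + ((s - s₁) / 30) ^ 2)⁻¹

lemma wt_pos (s₁ s : ℝ) : 0 < wt s₁ s := by unfold wt; positivity

lemma wt_le_one (s₁ s : ℝ) : wt s₁ s ≤ 1 := by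
  unfold wt
  apply inv_le_one_of_one_le₀
  nlinarith [sq_nonneg ((s - s₁) / 30)]

lemma contDiff_wt (s₁ : ℝ) : ContDiff ℝ 1 (wt s₁) := by
  unfold wt
  apply ContDiff.inv
  · fun_prop
  · intro s
    positivity

lemma deriv_wt (s₁ s : ℝ) :
    deriv (wt s₁) s = -(2 * ((s - s₁) / 30) * (1 / 30)) * wt s₁ s ^ 2 := by
  have h1 : HasDerivAt (fun s => (s - s₁) / 30) (1 / 30) s :=
    ((hasDerivAt_id s).sub_const s₁).div_const 30
  have h2 : HasDerivAt (fun s => 1 + (s - s₁) / 30 * ((s - s₁) / 30))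
      (1 / 30 * ((s - s₁) / 30) + (s - s₁) / 30 * (1 / 30)) s := (h1.mul h1).const_add 1
  have hne : 1 + (s - s₁) / 30 * ((s - s₁) / 30) ≠ 0 := by
    have : 0 ≤ (s - s₁) / 30 * ((s - s₁) / 30) := mul_self_nonneg _
    linarith
  have h3 := h2.inv hne
  have e : wt s₁ = (fun s => 1 + (s - s₁) / 30 * ((s - s₁) / 30))⁻¹ := by
    funext x
    simp only [wt, Pi.inv_apply]
    ring_nf
  rw [← e] at h3
  rw [h3.deriv]
  simp only [wt]
  rw [inv_pow, pow_two ((s - s₁) / 30)]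
  field_simp
  ring

lemma deriv_wt_sq (s₁ s : ℝ) : (deriv (wt s₁) s) ^ 2 ≤ (wt s₁ s / 30) ^ 2 := by
  rw [deriv_wt]
  have hw := wt_pos s₁ s
  set x := (s - s₁) / 30 with hx
  have hwx : wt s₁ s * (1 + x ^ 2) = 1 := by
    unfold wt
    rw [← hx]
    field_simp
  have h1 : (2 * x * wt s₁ s) ^ 2 ≤ 1 := by
    have h2 : (2 * x * wt s₁ s) ^ 2 ≤ (wt s₁ s * (1 + x ^ 2)) ^ 2 := by
      have h3 : (wt s₁ s * (1 + x ^ 2)) ^ 2 - (2 * x * wt s₁ s) ^ 2
          = wt s₁ s ^ 2 * (1 - x ^ 2) ^ 2 := by ring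
      have h4 : 0 ≤ wt s₁ s ^ 2 * (1 - x ^ 2) ^ 2 := by positivity
      linarith
    rw [hwx] at h2
    simpa using h2
  have e1 : (-(2 * x * (1 / 30)) * wt s₁ s ^ 2) ^ 2
      = (2 * x * wt s₁ s) ^ 2 * (wt s₁ s / 30) ^ 2 := by ring
  rw [e1]
  exact mul_le_of_le_one_left (sq_nonneg _) h1

lemma integral_wt_sq_le (s₁ a b : ℝ) (hab : a ≤ b) : ∫ s in a..b, wt s₁ s ^ 2 ≤ 30 * π := by
  have h1 : ∫ s in a..b, wt s₁ s ^ 2 ≤ ∫ s in a..b, wt s₁ s := by
    apply intervalIntegral.integral_mono_on hab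
    · exact ((contDiff_wt s₁).continuous.pow 2).intervalIntegrable _ _
    · exact (contDiff_wt s₁).continuous.intervalIntegrable _ _
    · intro s _
      have h2 := wt_pos s₁ s
      have h3 := wt_le_one s₁ s
      nlinarith
  have h2 : ∀ s, HasDerivAt (fun s => 30 * Real.arctan ((s - s₁) / 30)) (wt s₁ s) s := by
    intro s
    have h3 : HasDerivAt (fun s => (s - s₁) / 30) (1 / 30) s :=
      ((hasDerivAt_id s).sub_const s₁).div_const 30
    have h4 := (h3.arctan).const_mul 30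
    refine h4.congr_deriv ?_
    unfold wt
    field_simp
  rw [intervalIntegral.integral_eq_sub_of_hasDerivAt (fun s _ => h2 s)
    ((contDiff_wt s₁).continuous.intervalIntegrable _ _)] at h1
  have h3 := Real.arctan_lt_pi_div_two ((b - s₁) / 30)
  have h4 := Real.neg_pi_div_two_lt_arctan ((a - s₁) / 30)
  linarith

lemma wt_ge_half {s₁ s : ℝ} (h : |s - s₁| ≤ 1) : 1 / 2 ≤ wt s₁ s := by
  unfold wt
  rw [one_div]
  apply inv_anti₀ (by positivity)
  have h1 := abs_le.mp h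
  nlinarith [h1.1, h1.2]

/-! ### The pull back of the metric to the cylinder -/

/-- logarithm of the conformal factor on the cylinder -/
noncomputable def VV (lam : ℂ → ℝ) (z : ℂ) : ℝ := Real.log (lam (0 + exp z)) + 2 * z.re

variable {lam : ℂ → ℝ}

lemma contDiff_log (hsm : ContDiff ℝ 2 lam) (hpos : ∀ z, 0 < lam z) :
    ContDiff ℝ 2 (fun z => Real.log (lam z)) :=
  hsm.log (fun z => (hpos z).ne')

lemma contDiff_VV (hsm : ContDiff ℝ 2 lam) (hpos : ∀ z, 0 < lam z) : ContDiff ℝ 2 (VV lam) := by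
  unfold VV
  exact ((contDiff_log hsm hpos).comp (contDiff_exp_add 0)).add
    (contDiff_const.mul Complex.reCLM.contDiff)

lemma exp_VV (hpos : ∀ z, 0 < lam z) (z : ℂ) :
    Real.exp (VV lam z) = lam (exp z) * ‖exp z‖ ^ 2 := by
  unfold VV
  rw [Real.exp_add, Real.exp_log (hpos _), zero_add, Complex.norm_exp]
  congr 1
  rw [← Real.exp_nat_mul]
  norm_num

lemma fderiv_VV (hsm : ContDiff ℝ 2 lam) (hpos : ∀ z, 0 < lam z) (z v : ℂ) :
    fderiv ℝ (VV lam) z v
      = fderiv ℝ (fun z => Real.log (lam (0 + exp z))) z v + 2 * v.re := by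
  have hu := contDiff_log hsm hpos
  have h1 : HasFDerivAt (fun z => Real.log (lam (0 + exp z)))
      (fderiv ℝ (fun z => Real.log (lam (0 + exp z))) z) z :=
    (((hu.comp (contDiff_exp_add 0)).differentiable (by norm_num)) z).hasFDerivAt
  have h2 : HasFDerivAt (fun z : ℂ => 2 * z.re) ((2:ℝ) • Complex.reCLM) z :=
    Complex.reCLM.hasFDerivAt.const_mul 2
  have h3 : HasFDerivAt (VV lam) _ z := h1.add h2
  rw [h3.fderiv]
  simp

lemma laplacian_VV (hsm : ContDiff ℝ 2 lam) (hpos : ∀ z, 0 < lam z) (z : ℂ) :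
    Laplacian.laplacian (VV lam) z
      = ‖exp z‖ ^ 2 * Laplacian.laplacian (fun z => Real.log (lam z)) (exp z) := by
  have hu := contDiff_log hsm hpos
  have hG : ContDiff ℝ 2 (fun z => Real.log (lam (0 + exp z))) := hu.comp (contDiff_exp_add 0)
  have h0 := laplacian_comp_exp hu 0 z
  rw [zero_add] at h0
  rw [← h0, laplacian_eq_fderiv' (contDiff_VV hsm hpos), laplacian_eq_fderiv' hG]
  have h1 : ∀ v, fderiv ℝ (fun z => fderiv ℝ (VV lam) z v) z v
      = fderiv ℝ (fun z => fderiv ℝ (fun z => Real.log (lam (0 + exp z))) z v) z v := by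
    intro v
    have e : (fun z => fderiv ℝ (VV lam) z v)
        = (fun z => fderiv ℝ (fun z => Real.log (lam (0 + exp z))) z v + 2 * v.re) := by
      funext z
      exact fderiv_VV hsm hpos z v
    rw [e, fderiv_add_const]
  rw [h1, h1]

lemma VV_per (s : ℝ) : VV lam (pt s π) = VV lam (pt s (-π)) := by
  unfold VV
  rw [exp_pt_pi, pt_re, pt_re]

lemma fderiv_VV_per (hsm : ContDiff ℝ 2 lam) (hpos : ∀ z, 0 < lam z) (s : ℝ) (v : ℂ) :
    fderiv ℝ (VV lam) (pt s π) v = fderiv ℝ (VV lam) (pt s (-π)) v := by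
  have hu := (contDiff_log hsm hpos).of_le (show (1 : WithTop ℕ∞) ≤ 2 by norm_num)
  rw [fderiv_VV hsm hpos, fderiv_VV hsm hpos, fderiv_comp_exp hu, fderiv_comp_exp hu, exp_pt_pi]

/-- The Laplacian of `exp (-V)`. -/
lemma laplacian_exp_neg {V : ℂ → ℝ} (hV : ContDiff ℝ 2 V) (z : ℂ) :
    Laplacian.laplacian (fun z => Real.exp (-V z)) z
      = Real.exp (-V z) * (fderiv ℝ V z 1 ^ 2 + fderiv ℝ V z I ^ 2)
        - Real.exp (-V z) * Laplacian.laplacian V z := by
  have hV1 : ContDiff ℝ 1 V := hV.of_le (by norm_num)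
  have hE : ContDiff ℝ 2 (fun z => Real.exp (-V z)) := hV.neg.exp
  have hE1 : ∀ z v, fderiv ℝ (fun z => Real.exp (-V z)) z v
      = -(Real.exp (-V z) * fderiv ℝ V z v) := by
    intro z v
    have h1 := ((hV1.differentiable one_ne_zero z).hasFDerivAt).neg.exp
    have h2 : HasFDerivAt (fun z => Real.exp (-V z)) _ z := h1
    rw [h2.fderiv]
    simp
  have h2 : ∀ v, fderiv ℝ (fun z => fderiv ℝ (fun z => Real.exp (-V z)) z v) z v
      = Real.exp (-V z) * fderiv ℝ V z v ^ 2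
        - Real.exp (-V z) * fderiv ℝ (fun z => fderiv ℝ V z v) z v := by
    intro v
    have e : (fun z => fderiv ℝ (fun z => Real.exp (-V z)) z v)
        = (fun z => -(Real.exp (-V z) * fderiv ℝ V z v)) := by
      funext z
      exact hE1 z v
    rw [e]
    have d1 := ((hE.of_le (show (1 : WithTop ℕ∞) ≤ 2 by norm_num)).differentiable
      one_ne_zero z).hasFDerivAt
    have d2 := ((contDiff_fderiv_apply hV v).differentiable one_ne_zero z).hasFDerivAt
    have d3 := (d1.mul d2).neg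
    have d4 : HasFDerivAt (fun z => -(Real.exp (-V z) * fderiv ℝ V z v)) _ z := d3
    rw [d4.fderiv]
    simp only [neg_apply, add_apply, smul_apply, smul_eq_mul, hE1]
    ring
  rw [laplacian_eq_fderiv' hE, h2, h2, laplacian_eq_fderiv' hV]
  ring

end Pool.Agent.W_MP_1759d0_gt
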