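import Pool.Agent.W_MP_1759d0_gt.MeanValue

/-! # Comparison of the integral over a disc and over a box -/

namespace Pool.Agent.W_MP_1759d0_gt

open Filter Set MeasureTheory Complex
open scoped Topology ContDiff Real

/-- The integral of a nonnegative periodic function over a disc of radius one is at most its
integral over the corresponding part of the cylinder. -/
theorem disc_le_box {F : ℂ → ℝ} (hF : Continuous F) (hF0 : ∀ z, 0 ≤ F z)
    (hper : ∀ s θ, F (pt s (θ + 2 * π)) = F (pt s θ)) (s₁ θ₁ : ℝ) :
    ∫ r in (0:ℝ)..1, r * circ F (pt s₁ θ₁) r ≤ I2 (s₁ - 1) (s₁ + 1) F := by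
  set g : ℝ × ℝ → ℝ := fun p => F (pt (s₁ + p.1) (θ₁ + p.2)) with hg
  have hgc : Continuous g := hF.comp (by unfold pt; fun_prop)
  have hg0 : ∀ p, 0 ≤ g p := fun p => hF0 _
  set B : Set (ℝ × ℝ) := {p | p.1 ^ 2 + p.2 ^ 2 < 1} with hB
  have hBm : MeasurableSet B := by
    have : IsOpen B := isOpen_lt (by fun_prop) continuous_const
    exact this.measurableSet
  set f : ℝ × ℝ → ℝ := B.indicator g with hf
  -- the polar integral
  have h1 : ∫ r in (0:ℝ)..1, r * circ F (pt s₁ θ₁) r
      = ∫ p in Ioc (0:ℝ) 1 ×ˢ Ioc (-π) π, p.1 * g (polarCoord.symm p) := by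
    rw [Measure.volume_eq_prod, setIntegral_prod]
    · rw [intervalIntegral.integral_of_le zero_le_one]
      apply setIntegral_congr_fun measurableSet_Ioc
      intro r _
      simp only [circ]
      rw [intervalIntegral.integral_of_le neg_pi_le_pi, ← integral_const_mul]
      apply setIntegral_congr_fun measurableSet_Ioc
      intro θ _
      simp only [polarCoord_symm_apply, hg]
      congr 2
      unfold pt
      rw [Complex.exp_mul_I]
      push_cast
      ring
    · have hc : Continuous (fun p : ℝ × ℝ => p.1 * g (polarCoord.symm p)) := by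
        exact continuous_fst.mul (hgc.comp continuous_polarCoord_symm)
      exact (hc.continuousOn.integrableOn_compact
        (isCompact_Icc.prod isCompact_Icc)).mono_set
        (Set.prod_mono Ioc_subset_Icc_self Ioc_subset_Icc_self)
  have h2 : ∫ p in Ioc (0:ℝ) 1 ×ˢ Ioc (-π) π, p.1 * g (polarCoord.symm p)
      = ∫ p in polarCoord.target, p.1 • f (polarCoord.symm p) := by
    have e1 : ∫ p in Ioc (0:ℝ) 1 ×ˢ Ioc (-π) π, p.1 * g (polarCoord.symm p)
        = ∫ p in Ioo (0:ℝ) 1 ×ˢ Ioo (-π) π, p.1 * g (polarCoord.symm p) := by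
      apply setIntegral_congr_set
      rw [Measure.volume_eq_prod]
      exact Measure.set_prod_ae_eq Ioo_ae_eq_Ioc.symm Ioo_ae_eq_Ioc.symm
    rw [e1]
    have e2 : ∀ p ∈ polarCoord.target, p.1 • f (polarCoord.symm p)
        = ({p : ℝ × ℝ | p.1 < 1}).indicator (fun p => p.1 * g (polarCoord.symm p)) p := by
      intro p hp
      rw [polarCoord_target] at hp
      have hp0 : 0 < p.1 := hp.1
      have hmem : polarCoord.symm p ∈ B ↔ p.1 < 1 := by
        rw [hB, polarCoord_symm_apply]
        simp only [mem_ofPred_eq]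
        have : (p.1 * Real.cos p.2) ^ 2 + (p.1 * Real.sin p.2) ^ 2 = p.1 ^ 2 := by
          have := Real.sin_sq_add_cos_sq p.2
          nlinarith
        rw [this]
        constructor
        · intro h
          nlinarith
        · intro h
          nlinarith
      by_cases hlt : p.1 < 1
      · rw [hf, indicator_of_mem (hmem.mpr hlt), indicator_of_mem (by exact hlt)]
        rfl
      · rw [hf, indicator_of_notMem (fun h => hlt (hmem.mp h)), indicator_of_notMem (by exact hlt)]
        simp
    rw [setIntegral_congr_fun (polarCoord.open_target.measurableSet) e2]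
    rw [setIntegral_indicator (by exact (isOpen_lt continuous_fst continuous_const).measurableSet)]
    congr 2
    ext p
    rw [polarCoord_target]
    simp only [mem_prod, mem_Ioo, mem_Ioi, mem_inter_iff, mem_ofPred_eq]
    tauto
  rw [h1, h2, integral_comp_polarCoord_symm f]
  -- compare with the box
  set Q : Set (ℝ × ℝ) := Ioc (-1:ℝ) 1 ×ˢ Ioc (-π) π with hQ
  have hQm : MeasurableSet Q := measurableSet_Ioc.prod measurableSet_Ioc
  have hgint : IntegrableOn g Q := (hgc.continuousOn.integrableOn_compact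
    (isCompact_Icc.prod isCompact_Icc)).mono_set
    (Set.prod_mono Ioc_subset_Icc_self Ioc_subset_Icc_self)
  have hBQ : B ⊆ Q := by
    intro p hp
    rw [hB, mem_ofPred_eq] at hp
    have hpi := Real.pi_gt_three
    refine ⟨⟨?_, ?_⟩, ⟨?_, ?_⟩⟩ <;> nlinarith [sq_nonneg p.1, sq_nonneg p.2]
  have h3 : ∫ p, f p ≤ ∫ p in Q, g p := by
    rw [hf, integral_indicator hBm]
    apply setIntegral_mono_set hgint
    · exact Eventually.of_forall hg0
    · exact hBQ.eventuallyLE
  refine h3.trans (le_of_eq ?_)
  rw [hQ, Measure.volume_eq_prod, setIntegral_prod _ (by rw [← Measure.volume_eq_prod]; exact hgint)]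
  unfold I2 I1
  have e3 : ∫ s in (s₁ - 1)..(s₁ + 1), ∫ θ in (-π)..π, F (pt s θ)
      = ∫ x in (-1:ℝ)..1, ∫ θ in (-π)..π, F (pt (s₁ + x) θ) := by
    rw [intervalIntegral.integral_comp_add_left (fun s => ∫ θ in (-π)..π, F (pt s θ)) s₁]
    rfl
  rw [e3, intervalIntegral.integral_of_le (by norm_num : (-1:ℝ) ≤ 1)]
  apply setIntegral_congr_fun measurableSet_Ioc
  intro x _
  simp only [hg]
  rw [← intervalIntegral.integral_of_le neg_pi_le_pi,
    intervalIntegral.integral_comp_add_left (fun θ => F (pt (s₁ + x) θ)) θ₁]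
  have hP : Function.Periodic (fun θ => F (pt (s₁ + x) θ)) (2 * π) := fun θ => hper _ θ
  have := hP.intervalIntegral_add_eq (θ₁ + -π) (-π)
  have e4 : θ₁ + -π + 2 * π = θ₁ + π := by ring
  have e5 : -π + 2 * π = π := by ring
  rw [e4, e5] at this
  exact this

end Pool.Agent.W_MP_1759d0_gt
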