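import Mathlib

/-! # Conformal (Kähler) metrics `lam |dz|²` on the complex plane: basic definitions -/

namespace Pool.Agent.W_MP_1759d0_gt

open Filter
open scoped Topology

/-- The length of the path `γ` restricted to `[0,1]` for the metric `lam (dx² + dy²)`. -/
noncomputable def gLength (lam : ℂ → ℝ) (γ : ℝ → ℂ) : ℝ :=
  ∫ t in (0 : ℝ)..1, Real.sqrt (lam (γ t)) * ‖deriv γ t‖

/-- The Riemannian distance of the metric `lam (dx² + dy²)`: the infimum of the lengths of
the `C¹` paths joining the two points. -/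
noncomputable def gDist (lam : ℂ → ℝ) (p q : ℂ) : ℝ :=
  sInf {L : ℝ | ∃ γ : ℝ → ℂ, ContDiff ℝ 1 γ ∧ γ 0 = p ∧ γ 1 = q ∧ L = gLength lam γ}

/-- Completeness of the metric `lam (dx² + dy²)`: every sequence which is Cauchy for the
Riemannian distance converges for the Riemannian distance. -/
def IsGComplete (lam : ℂ → ℝ) : Prop :=
  ∀ x : ℕ → ℂ, (∀ ε : ℝ, 0 < ε → ∃ N : ℕ, ∀ m ≥ N, ∀ n ≥ N, gDist lam (x m) (x n) < ε) →
    ∃ a : ℂ, Tendsto (fun n => gDist lam (x n) a) atTop (𝓝 0)

/-- The Gauss curvature `K = - Δ (log lam) / (2 lam)` of the metric `lam (dx² + dy²)`. -/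
noncomputable def gaussCurvature (lam : ℂ → ℝ) (z : ℂ) : ℝ :=
  -(Laplacian.laplacian (fun w : ℂ => Real.log (lam w)) z) / (2 * lam z)

/-- The Hadamard order of `f` with respect to the metric `lam (dx² + dy²)`: the limsup, as `p`
leaves every compact set (points with `|f p| ≤ 1` being ignored), of
`log (log |f p|) / log (dist (p, 0))`. -/
noncomputable def hadamardOrder (lam : ℂ → ℝ) (f : ℂ → ℂ) : EReal :=
  limsup (fun p : ℂ => ((Real.log (Real.log ‖f p‖) / Real.log (gDist lam p 0) : ℝ) : EReal))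
    (cocompact ℂ ⊓ 𝓟 {p : ℂ | 1 < ‖f p‖})

end Pool.Agent.W_MP_1759d0_gt
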