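import Pool.Agent.W_MP_1759d0_gt.Defs

/-! # Elementary properties of the distance of a conformal metric -/

namespace Pool.Agent.W_MP_1759d0_gt

open Filter Set MeasureTheory
open scoped Topology ContDiff

/-- Length on `[a,b]`. -/
noncomputable def len (lam : ℂ → ℝ) (γ : ℝ → ℂ) (a b : ℝ) : ℝ :=
  ∫ t in a..b, Real.sqrt (lam (γ t)) * ‖deriv γ t‖

lemma gLength_eq_len (lam : ℂ → ℝ) (γ : ℝ → ℂ) : gLength lam γ = len lam γ 0 1 := rfl

variable {lam : ℂ → ℝ}

lemma continuous_integrand (hl : Continuous lam) {γ : ℝ → ℂ} (hγ : ContDiff ℝ 1 γ) :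
    Continuous (fun t => Real.sqrt (lam (γ t)) * ‖deriv γ t‖) := by
  have h1 : Continuous (deriv γ) := hγ.continuous_deriv le_rfl
  exact (hl.comp hγ.continuous).sqrt.mul h1.norm

lemma len_nonneg {γ : ℝ → ℂ} {a b : ℝ} (hab : a ≤ b) : 0 ≤ len lam γ a b :=
  intervalIntegral.integral_nonneg hab
    (fun _ _ => mul_nonneg (Real.sqrt_nonneg _) (norm_nonneg _))

lemma len_add (hl : Continuous lam) {γ : ℝ → ℂ} (hγ : ContDiff ℝ 1 γ) (a b c : ℝ) :
    len lam γ a b + len lam γ b c = len lam γ a c :=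
  intervalIntegral.integral_add_adjacent_intervals
    ((continuous_integrand hl hγ).intervalIntegrable _ _)
    ((continuous_integrand hl hγ).intervalIntegrable _ _)

/-- Reparametrisation by a nondecreasing `C¹` function. -/
lemma len_comp (hl : Continuous lam) {γ : ℝ → ℂ} (hγ : ContDiff ℝ 1 γ) {φ : ℝ → ℝ}
    (hφ : ContDiff ℝ 1 φ) (hmono : Monotone φ) (a b : ℝ) :
    len lam (γ ∘ φ) a b = len lam γ (φ a) (φ b) := by
  unfold len
  have hcont : Continuous (fun t => Real.sqrt (lam (γ t)) * ‖deriv γ t‖) :=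
    continuous_integrand hl hγ
  rw [← intervalIntegral.integral_comp_mul_deriv
    (f := φ) (f' := deriv φ) (g := fun t => Real.sqrt (lam (γ t)) * ‖deriv γ t‖)
    (fun x _ => (hφ.differentiable one_ne_zero x).hasDerivAt)
    (hφ.continuous_deriv le_rfl).continuousOn hcont]
  apply intervalIntegral.integral_congr
  intro t _
  have h1 : deriv (γ ∘ φ) t = deriv φ t • deriv γ (φ t) :=
    (((hγ.differentiable one_ne_zero (φ t)).hasDerivAt).scomp t
      ((hφ.differentiable one_ne_zero t).hasDerivAt)).deriv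
  have h2 : 0 ≤ deriv φ t := hmono.deriv_nonneg
  simp only [h1, norm_smul, Real.norm_eq_abs, abs_of_nonneg h2, Function.comp]
  ring

lemma len_congr {γ₁ γ₂ : ℝ → ℂ} {a b : ℝ} (hab : a ≤ b)
    (h : ∀ t ∈ Icc a b, γ₁ =ᶠ[𝓝 t] γ₂) :
    len lam γ₁ a b = len lam γ₂ a b := by
  unfold len
  apply intervalIntegral.integral_congr
  intro t ht
  rw [uIcc_of_le hab] at ht
  have h1 := h t ht
  simp only [h1.deriv_eq, h1.eq_of_nhds]

/-- Reversal of a path. -/
lemma len_rev {γ : ℝ → ℂ} (a b : ℝ) :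
    len lam (fun t => γ (a + b - t)) a b = len lam γ a b := by
  unfold len
  have h1 : ∀ t, deriv (fun t => γ (a + b - t)) t = - deriv γ (a + b - t) := by
    intro t
    have := deriv_comp_const_sub (f := γ) (a + b) t
    simpa using this
  simp only [h1, norm_neg]
  have h2 := intervalIntegral.integral_comp_sub_left
    (fun t => Real.sqrt (lam (γ t)) * ‖deriv γ t‖) (a + b) (a := a) (b := b)
  rw [h2]
  congr 1 <;> ring

/-- the set of lengths of paths from `p` to `q` -/
lemma bddBelow_lengths (p q : ℂ) :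
    BddBelow {L : ℝ | ∃ γ : ℝ → ℂ, ContDiff ℝ 1 γ ∧ γ 0 = p ∧ γ 1 = q ∧ L = gLength lam γ} := by
  refine ⟨0, ?_⟩
  rintro L ⟨γ, -, -, -, rfl⟩
  exact len_nonneg zero_le_one

lemma lengths_nonempty (p q : ℂ) :
    {L : ℝ | ∃ γ : ℝ → ℂ, ContDiff ℝ 1 γ ∧ γ 0 = p ∧ γ 1 = q ∧ L = gLength lam γ}.Nonempty := by
  refine ⟨_, fun t => p + (t : ℂ) * (q - p), ?_, by simp, by simp, rfl⟩
  have : ContDiff ℝ 1 (fun t : ℝ => (t : ℂ)) := Complex.ofRealCLM.contDiff
  exact contDiff_const.add (this.mul contDiff_const)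

lemma gDist_nonneg (p q : ℂ) : 0 ≤ gDist lam p q := by
  apply Real.sInf_nonneg
  rintro L ⟨γ, -, -, -, rfl⟩
  exact len_nonneg zero_le_one

lemma gDist_le_gLength {γ : ℝ → ℂ} (hγ : ContDiff ℝ 1 γ) :
    gDist lam (γ 0) (γ 1) ≤ gLength lam γ :=
  csInf_le (bddBelow_lengths _ _) ⟨γ, hγ, rfl, rfl, rfl⟩

lemma exists_path_lt {p q : ℂ} {r : ℝ} (h : gDist lam p q < r) :
    ∃ γ : ℝ → ℂ, ContDiff ℝ 1 γ ∧ γ 0 = p ∧ γ 1 = q ∧ gLength lam γ < r := by
  obtain ⟨L, ⟨γ, hγ, h0, h1, rfl⟩, hL⟩ := exists_lt_of_csInf_lt (lengths_nonempty p q) h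
  exact ⟨γ, hγ, h0, h1, hL⟩

/-- The distance of two points of a path is at most the length of the path between them. -/
lemma gDist_le_len (hl : Continuous lam) {γ : ℝ → ℂ} (hγ : ContDiff ℝ 1 γ) {a b : ℝ}
    (hab : a ≤ b) : gDist lam (γ a) (γ b) ≤ len lam γ a b := by
  set φ : ℝ → ℝ := fun t => a + t * (b - a) with hφdef
  have hφ : ContDiff ℝ 1 φ := contDiff_const.add (contDiff_id.mul contDiff_const)
  have hmono : Monotone φ := by
    intro x y hxy
    simp only [hφdef]
    have : x * (b - a) ≤ y * (b - a) := mul_le_mul_of_nonneg_right hxy (by linarith)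
    linarith
  have h1 := gDist_le_gLength (lam := lam) (hγ.comp hφ)
  rw [gLength_eq_len, len_comp hl hγ hφ hmono] at h1
  have e0 : φ 0 = a := by simp [hφdef]
  have e1 : φ 1 = b := by simp [hφdef]
  simpa [Function.comp, e0, e1] using h1

lemma gDist_comm_le (p q : ℂ) : gDist lam p q ≤ gDist lam q p := by
  apply le_of_forall_pos_le_add
  intro ε hε
  obtain ⟨γ, hγ, h0, h1, hL⟩ := exists_path_lt (lam := lam) (p := q) (q := p)
    (r := gDist lam q p + ε) (by linarith)
  have h2 : ContDiff ℝ 1 (fun t : ℝ => γ (0 + 1 - t)) :=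
    hγ.comp (contDiff_const.sub contDiff_id)
  have h3 := gDist_le_gLength (lam := lam) h2
  rw [gLength_eq_len, len_rev, ← gLength_eq_len] at h3
  simp only [zero_add, sub_zero, sub_self, h0, h1] at h3
  linarith

lemma gDist_comm (p q : ℂ) : gDist lam p q = gDist lam q p :=
  le_antisymm (gDist_comm_le p q) (gDist_comm_le q p)

lemma gDist_triangle (hl : Continuous lam) (p q r : ℂ) :
    gDist lam p r ≤ gDist lam p q + gDist lam q r := by
  apply le_of_forall_pos_le_add
  intro ε hε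
  obtain ⟨γ₁, hγ₁, h10, h11, hL1⟩ := exists_path_lt (lam := lam) (p := p) (q := q)
    (r := gDist lam p q + ε / 2) (by linarith)
  obtain ⟨γ₂, hγ₂, h20, h21, hL2⟩ := exists_path_lt (lam := lam) (p := q) (q := r)
    (r := gDist lam q r + ε / 2) (by linarith)
  set φ₁ : ℝ → ℝ := fun t => Real.smoothTransition (3 * t) with hφ₁
  set φ₂ : ℝ → ℝ := fun t => Real.smoothTransition (3 * t - 2) with hφ₂
  have c1 : ContDiff ℝ 1 φ₁ :=
    Real.smoothTransition.contDiff.comp (contDiff_const.mul contDiff_id)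
  have c2 : ContDiff ℝ 1 φ₂ :=
    Real.smoothTransition.contDiff.comp ((contDiff_const.mul contDiff_id).sub contDiff_const)
  have m1 : Monotone φ₁ := by
    intro x y hxy
    exact Real.smoothTransition.monotone (by linarith)
  have m2 : Monotone φ₂ := by
    intro x y hxy
    exact Real.smoothTransition.monotone (by linarith)
  have z2 : ∀ t, t ≤ 2 / 3 → φ₂ t = 0 := fun t ht =>
    Real.smoothTransition.zero_of_nonpos (by linarith)
  have o1 : ∀ t, 1 / 3 ≤ t → φ₁ t = 1 := fun t ht =>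
    Real.smoothTransition.one_of_one_le (by linarith)
  have z1 : φ₁ 0 = 0 := Real.smoothTransition.zero_of_nonpos (by norm_num)
  have o2 : φ₂ 1 = 1 := Real.smoothTransition.one_of_one_le (by norm_num)
  set γ : ℝ → ℂ := fun t => γ₁ (φ₁ t) + γ₂ (φ₂ t) - q with hγdef
  have hγ : ContDiff ℝ 1 γ := ((hγ₁.comp c1).add (hγ₂.comp c2)).sub contDiff_const
  have e0 : γ 0 = p := by simp [hγdef, z1, z2 0 (by norm_num), h10, h20]
  have e1 : γ 1 = r := by simp [hγdef, o2, o1 1 (by norm_num), h11, h21]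
  have h3 := gDist_le_gLength (lam := lam) hγ
  rw [e0, e1, gLength_eq_len, ← len_add hl hγ 0 (1 / 2) 1] at h3
  have l1 : len lam γ 0 (1 / 2) = len lam γ₁ 0 1 := by
    rw [len_congr (γ₂ := γ₁ ∘ φ₁) (by norm_num) _, len_comp hl hγ₁ c1 m1, z1,
      o1 (1 / 2) (by norm_num)]
    intro t ht
    have : Iio (2 / 3 : ℝ) ∈ 𝓝 t := Iio_mem_nhds (by linarith [ht.2])
    filter_upwards [this] with s hs
    simp [hγdef, z2 s (le_of_lt hs), h20]
  have l2 : len lam γ (1 / 2) 1 = len lam γ₂ 0 1 := by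
    rw [len_congr (γ₂ := γ₂ ∘ φ₂) (by norm_num) _, len_comp hl hγ₂ c2 m2, o2,
      z2 (1 / 2) (by norm_num)]
    intro t ht
    have : Ioi (1 / 3 : ℝ) ∈ 𝓝 t := Ioi_mem_nhds (by linarith [ht.1])
    filter_upwards [this] with s hs
    simp [hγdef, o1 s (le_of_lt hs), h11]
  rw [l1, l2, ← gLength_eq_len, ← gLength_eq_len] at h3
  linarith

/-- A function whose gradient is controlled by the metric is Lipschitz for the distance. -/
lemma abs_sub_le_gDist (hl : Continuous lam) {N : ℂ → ℝ} (hN : ContDiff ℝ 1 N) {C : ℝ}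
    (hC : 0 ≤ C) (hgrad : ∀ z, ‖fderiv ℝ N z‖ ≤ C * Real.sqrt (lam z)) (p q : ℂ) :
    |N q - N p| ≤ C * gDist lam p q := by
  apply le_of_forall_pos_le_add
  intro ε hε
  obtain ⟨γ, hγ, h0, h1, hL⟩ := exists_path_lt (lam := lam) (p := p) (q := q)
    (r := gDist lam p q + ε / (C + 1)) (by
      have : 0 < ε / (C + 1) := by positivity
      linarith)
  have hd : ∀ t, HasDerivAt (fun t => N (γ t)) (fderiv ℝ N (γ t) (deriv γ t)) t := by
    intro t
    exact ((hN.differentiable one_ne_zero (γ t)).hasFDerivAt).comp_hasDerivAt t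
      ((hγ.differentiable one_ne_zero t).hasDerivAt)
  have hcont : Continuous (fun t => fderiv ℝ N (γ t) (deriv γ t)) :=
    ((hN.continuous_fderiv one_ne_zero).comp hγ.continuous).clm_apply
      (hγ.continuous_deriv le_rfl)
  have hint := intervalIntegral.integral_eq_sub_of_hasDerivAt (a := 0) (b := 1)
    (fun t _ => hd t) (hcont.intervalIntegrable _ _)
  have hb : |∫ t in (0:ℝ)..1, fderiv ℝ N (γ t) (deriv γ t)| ≤ C * gLength lam γ := by
    unfold gLength
    rw [← intervalIntegral.integral_const_mul, ← Real.norm_eq_abs]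
    apply intervalIntegral.norm_integral_le_of_norm_le zero_le_one
    · refine Filter.Eventually.of_forall (fun t _ => ?_)
      calc ‖fderiv ℝ N (γ t) (deriv γ t)‖ ≤ ‖fderiv ℝ N (γ t)‖ * ‖deriv γ t‖ :=
            ContinuousLinearMap.le_opNorm _ _
        _ ≤ (C * Real.sqrt (lam (γ t))) * ‖deriv γ t‖ :=
            mul_le_mul_of_nonneg_right (hgrad _) (norm_nonneg _)
        _ = C * (Real.sqrt (lam (γ t)) * ‖deriv γ t‖) := by ring
    · exact ((continuous_integrand hl hγ).const_mul C).intervalIntegrable _ _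
  rw [hint, h0, h1] at hb
  have h5 : C * gLength lam γ ≤ C * (gDist lam p q + ε / (C + 1)) :=
    mul_le_mul_of_nonneg_left hL.le hC
  have h6 : C * (ε / (C + 1)) ≤ ε := by
    rw [mul_div_assoc', div_le_iff₀ (by linarith)]
    nlinarith
  linarith [mul_add C (gDist lam p q) (ε / (C + 1))]

/-- Local upper bound by the Euclidean distance. -/
lemma gDist_le_of_bound {p q : ℂ} {M : ℝ}
    (hM : ∀ z ∈ segment ℝ p q, Real.sqrt (lam z) ≤ M) (hl : Continuous lam) :
    gDist lam p q ≤ M * ‖q - p‖ := by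
  set γ : ℝ → ℂ := fun t => p + (t : ℂ) * (q - p) with hγdef
  have hγ : ContDiff ℝ 1 γ := by
    have : ContDiff ℝ 1 (fun t : ℝ => (t : ℂ)) := Complex.ofRealCLM.contDiff
    exact contDiff_const.add (this.mul contDiff_const)
  have hder : ∀ t, deriv γ t = q - p := by
    intro t
    have h1 : HasDerivAt (fun t : ℝ => (t : ℂ)) 1 t := Complex.ofRealCLM.hasDerivAt
    have h2 : HasDerivAt γ (0 + 1 * (q - p)) t :=
      (hasDerivAt_const t p).add (h1.mul_const (q - p))
    simpa using h2.deriv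
  have h1 := gDist_le_gLength (lam := lam) hγ
  have e0 : γ 0 = p := by simp [hγdef]
  have e1 : γ 1 = q := by simp [hγdef]
  rw [e0, e1] at h1
  refine h1.trans ?_
  unfold gLength
  have h2 : ∫ t in (0:ℝ)..1, Real.sqrt (lam (γ t)) * ‖deriv γ t‖
      ≤ ∫ t in (0:ℝ)..1, M * ‖q - p‖ := by
    apply intervalIntegral.integral_mono_on zero_le_one
      ((continuous_integrand hl hγ).intervalIntegrable _ _)
      (continuous_const.intervalIntegrable _ _)
    intro t ht
    rw [hder]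
    apply mul_le_mul_of_nonneg_right _ (norm_nonneg _)
    apply hM
    rw [segment_eq_image']
    refine ⟨t, ht, ?_⟩
    simp [hγdef]
  simpa using h2

end Pool.Agent.W_MP_1759d0_gt
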