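import Pool.Agent.W_MP_1759d0_gt.Box

/-! # The weighted energy estimate on the cylinder -/

namespace Pool.Agent.W_MP_1759d0_gt

open Filter Set MeasureTheory Complex
open scoped Topology ContDiff Real

lemma fderiv_quad {W N V P : ℂ → ℝ} (hW : ContDiff ℝ 1 W) (hN : ContDiff ℝ 1 N)
    (hV : ContDiff ℝ 1 V) (hP : ContDiff ℝ 1 P) (z v : ℂ) :
    fderiv ℝ (fun z => W z * W z * (N z * N z) * Real.exp (-V z) * P z) z v
      = 2 * W z * fderiv ℝ W z v * N z ^ 2 * Real.exp (-V z) * P z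
        + 2 * W z ^ 2 * N z * fderiv ℝ N z v * Real.exp (-V z) * P z
        - W z ^ 2 * N z ^ 2 * Real.exp (-V z) * fderiv ℝ V z v * P z
        + W z ^ 2 * N z ^ 2 * Real.exp (-V z) * fderiv ℝ P z v := by
  have dW := (hW.differentiable one_ne_zero z).hasFDerivAt
  have dN := (hN.differentiable one_ne_zero z).hasFDerivAt
  have dV := (hV.differentiable one_ne_zero z).hasFDerivAt
  have dP := (hP.differentiable one_ne_zero z).hasFDerivAt
  have h := ((((dW.mul dW).mul (dN.mul dN)).mul dV.neg.exp).mul dP)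
  have h' : HasFDerivAt (fun z => W z * W z * (N z * N z) * Real.exp (-V z) * P z) _ z := h
  rw [h'.fderiv]
  simp only [add_apply, smul_apply, neg_apply, Pi.mul_apply, Pi.neg_apply, smul_eq_mul]
  ring

/-- Poincaré inequality on a circle, for functions which are at most one somewhere. -/
lemma poincare {Φ : ℝ → ℝ} {Φ' : ℝ → ℝ} (hΦ : ∀ θ, HasDerivAt Φ (Φ' θ) θ)
    (hΦ'c : Continuous Φ') (hpos : ∀ θ, 0 ≤ Φ θ) {θ₀ : ℝ} (hθ₀ : θ₀ ∈ Icc (-π) π)
    (h0 : Φ θ₀ ≤ 1) :
    ∫ θ in (-π)..π, Φ θ ^ 2 ≤ 4 * π + 8 * π ^ 2 * ∫ θ in (-π)..π, Φ' θ ^ 2 := by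
  have hpi := Real.pi_pos
  have hint : ∀ a b, IntervalIntegrable (fun θ => |Φ' θ|) volume a b := fun a b =>
    hΦ'c.abs.intervalIntegrable a b
  set D : ℝ := ∫ θ in (-π)..π, |Φ' θ| with hD
  have hbound : ∀ θ ∈ Icc (-π) π, Φ θ ≤ 1 + D := by
    intro θ hθ
    have h1 : Φ θ - Φ θ₀ = ∫ t in θ₀..θ, Φ' t :=
      (intervalIntegral.integral_eq_sub_of_hasDerivAt (fun t _ => hΦ t)
        (hΦ'c.intervalIntegrable _ _)).symm
    have h2 : |∫ t in θ₀..θ, Φ' t| ≤ D := by
      rw [hD]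
      calc abs (∫ t in θ₀..θ, Φ' t) ≤ abs (∫ t in θ₀..θ, abs (Φ' t)) := by
            have := intervalIntegral.norm_integral_le_abs_integral_norm (f := Φ')
              (a := θ₀) (b := θ) (μ := volume)
            simpa [Real.norm_eq_abs] using this
        _ ≤ abs (∫ t in (-π)..π, abs (Φ' t)) := by
            apply intervalIntegral.abs_integral_mono_interval
            · rw [uIoc_of_le neg_pi_le_pi]
              intro x hx
              rcases le_total θ₀ θ with h | h
              · rw [uIoc_of_le h] at hx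
                exact ⟨lt_of_le_of_lt hθ₀.1 hx.1, hx.2.trans hθ.2⟩
              · rw [uIoc_of_ge h] at hx
                exact ⟨lt_of_le_of_lt hθ.1 hx.1, hx.2.trans hθ₀.2⟩
            · exact Eventually.of_forall (fun t => abs_nonneg _)
            · exact hint _ _
        _ = ∫ t in (-π)..π, abs (Φ' t) := by
            rw [abs_of_nonneg]
            exact intervalIntegral.integral_nonneg neg_pi_le_pi (fun _ _ => abs_nonneg _)
    have h3 := le_abs_self (Φ θ - Φ θ₀)
    rw [h1] at h3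
    rw [← h1] at h3
    rw [← h1] at h2
    linarith
  have hD0 : 0 ≤ D := intervalIntegral.integral_nonneg neg_pi_le_pi (fun _ _ => abs_nonneg _)
  -- Cauchy-Schwarz
  have hCS : D ^ 2 ≤ 2 * π * ∫ θ in (-π)..π, Φ' θ ^ 2 := by
    have hq : ∀ c : ℝ, 0 ≤ (∫ θ in (-π)..π, Φ' θ ^ 2) - 2 * c * D + 2 * π * c ^ 2 := by
      intro c
      have h1 : ∫ θ in (-π)..π, (|Φ' θ| - c) ^ 2
          = (∫ θ in (-π)..π, Φ' θ ^ 2) - 2 * c * D + 2 * π * c ^ 2 := by
        have e : ∀ θ, (|Φ' θ| - c) ^ 2 = Φ' θ ^ 2 - 2 * c * |Φ' θ| + c ^ 2 := by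
          intro θ
          have := sq_abs (Φ' θ)
          nlinarith
        simp only [e]
        rw [intervalIntegral.integral_add, intervalIntegral.integral_sub,
          intervalIntegral.integral_const_mul, intervalIntegral.integral_const, smul_eq_mul]
        · ring
        · exact (hΦ'c.pow 2).intervalIntegrable _ _
        · exact (hint _ _).const_mul _
        · exact ((hΦ'c.pow 2).sub (hΦ'c.abs.const_mul _)).intervalIntegrable _ _
        · exact continuous_const.intervalIntegrable _ _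
      rw [← h1]
      exact intervalIntegral.integral_nonneg neg_pi_le_pi (fun _ _ => sq_nonneg _)
    have h2 := hq (D / (2 * π))
    have h3 : (∫ θ in (-π)..π, Φ' θ ^ 2) - 2 * (D / (2 * π)) * D + 2 * π * (D / (2 * π)) ^ 2
        = (∫ θ in (-π)..π, Φ' θ ^ 2) - D ^ 2 / (2 * π) := by
      field_simp
      ring
    rw [h3] at h2
    have h4 : D ^ 2 / (2 * π) ≤ ∫ θ in (-π)..π, Φ' θ ^ 2 := by linarith
    rw [div_le_iff₀ (by positivity)] at h4
    linarith
  have hcont : Continuous Φ := continuous_iff_continuousAt.mpr (fun θ => (hΦ θ).continuousAt)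
  calc ∫ θ in (-π)..π, Φ θ ^ 2 ≤ ∫ _θ in (-π)..π, (2 + 2 * D ^ 2) := by
        apply intervalIntegral.integral_mono_on neg_pi_le_pi
        · exact (hcont.pow 2).intervalIntegrable _ _
        · exact continuous_const.intervalIntegrable _ _
        · intro θ hθ
          have h1 := hbound θ hθ
          have h2 := hpos θ
          nlinarith [sq_nonneg (1 - D)]
    _ = 4 * π + 4 * π * D ^ 2 := by
        rw [intervalIntegral.integral_const, smul_eq_mul]
        ring
    _ ≤ 4 * π + 8 * π ^ 2 * ∫ θ in (-π)..π, Φ' θ ^ 2 := by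
        nlinarith

/-- The Poincaré inequality in the form used below. -/
lemma poincare_cyl {N V : ℂ → ℝ} (hN : ContDiff ℝ 1 N) (hV : ContDiff ℝ 1 V)
    (hN0 : ∀ z, 0 ≤ N z) (hN1 : ∀ z, N z ≤ 1)
    (hNt : ∀ z, fderiv ℝ N z I ^ 2 * Real.exp (-V z) ≤ 1) {s : ℝ}
    (hmax : ∃ θ ∈ Icc (-π) π, 0 ≤ V (pt s θ)) :
    I1 (fun z => N z ^ 2 * Real.exp (-V z)) s
      ≤ 4 * π + 32 * π ^ 3
        + 4 * π ^ 2 * I1 (fun z => N z ^ 2 * Real.exp (-V z) * fderiv ℝ V z I ^ 2) s := by
  obtain ⟨θ₀, hθ₀, hVθ₀⟩ := hmax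
  set Φ : ℝ → ℝ := fun θ => N (pt s θ) * Real.exp (-V (pt s θ) / 2) with hΦ
  set Φ' : ℝ → ℝ := fun θ => (fderiv ℝ N (pt s θ) I - N (pt s θ) * fderiv ℝ V (pt s θ) I / 2)
    * Real.exp (-V (pt s θ) / 2) with hΦ'
  have hder : ∀ θ, HasDerivAt Φ (Φ' θ) θ := by
    intro θ
    have h1 := hasDerivAt_comp_snd hN s θ
    have h2 := ((hasDerivAt_comp_snd hV s θ).neg.div_const 2).exp
    have h3 := h1.mul h2
    refine h3.congr_deriv ?_
    simp only [hΦ', Pi.neg_apply]
    ring
  have hNc := continuous_comp_pt_snd hN.continuous s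
  have hVc := continuous_comp_pt_snd hV.continuous s
  have hNIc := continuous_comp_pt_snd (continuous_fderiv_apply hN I) s
  have hVIc := continuous_comp_pt_snd (continuous_fderiv_apply hV I) s
  have hΦ'c : Continuous Φ' := by
    simp only [hΦ']
    exact (hNIc.sub ((hNc.mul hVIc).div_const 2)).mul
      (Real.continuous_exp.comp (hVc.neg.div_const 2))
  have hexp : ∀ x : ℝ, Real.exp (-x / 2) ^ 2 = Real.exp (-x) := by
    intro x
    rw [← Real.exp_nat_mul]
    congr 1
    push_cast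
    ring
  have hΦ0 : ∀ θ, 0 ≤ Φ θ := fun θ => mul_nonneg (hN0 _) (Real.exp_pos _).le
  have hΦ1 : Φ θ₀ ≤ 1 := by
    simp only [hΦ]
    have h1 : Real.exp (-V (pt s θ₀) / 2) ≤ 1 := by
      rw [Real.exp_le_one_iff]
      linarith
    exact mul_le_one₀ (hN1 _) (Real.exp_pos _).le h1
  have key := poincare hder hΦ'c hΦ0 hθ₀ hΦ1
  have e1 : I1 (fun z => N z ^ 2 * Real.exp (-V z)) s = ∫ θ in (-π)..π, Φ θ ^ 2 := by
    unfold I1
    apply intervalIntegral.integral_congr
    intro θ _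
    simp only [hΦ, mul_pow, hexp]
  have e2 : ∫ θ in (-π)..π, Φ' θ ^ 2
      ≤ ∫ θ in (-π)..π, (2 + (1 / 2) *
          (N (pt s θ) ^ 2 * Real.exp (-V (pt s θ)) * fderiv ℝ V (pt s θ) I ^ 2)) := by
    apply intervalIntegral.integral_mono_on neg_pi_le_pi
    · exact (hΦ'c.pow 2).intervalIntegrable _ _
    · apply Continuous.intervalIntegrable
      exact continuous_const.add (continuous_const.mul
        (((hNc.pow 2).mul (Real.continuous_exp.comp hVc.neg)).mul (hVIc.pow 2)))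
    · intro θ _
      simp only [hΦ', mul_pow, hexp]
      have h1 := hNt (pt s θ)
      have h2 := Real.exp_pos (-V (pt s θ))
      have h3 : (fderiv ℝ N (pt s θ) I - N (pt s θ) * fderiv ℝ V (pt s θ) I / 2) ^ 2
          ≤ 2 * fderiv ℝ N (pt s θ) I ^ 2
            + (1 / 2) * (N (pt s θ) ^ 2 * fderiv ℝ V (pt s θ) I ^ 2) := by
        nlinarith [sq_nonneg (fderiv ℝ N (pt s θ) I + N (pt s θ) * fderiv ℝ V (pt s θ) I / 2)]
      have h4 := mul_le_mul_of_nonneg_right h3 h2.le
      nlinarith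
  have e3 : ∫ θ in (-π)..π, (2 + (1 / 2) *
          (N (pt s θ) ^ 2 * Real.exp (-V (pt s θ)) * fderiv ℝ V (pt s θ) I ^ 2))
      = 4 * π + (1 / 2) * I1 (fun z => N z ^ 2 * Real.exp (-V z) * fderiv ℝ V z I ^ 2) s := by
    rw [intervalIntegral.integral_add, intervalIntegral.integral_const_mul,
      intervalIntegral.integral_const, smul_eq_mul]
    · unfold I1
      ring
    · exact continuous_const.intervalIntegrable _ _
    · apply Continuous.intervalIntegrable
      exact (continuous_const.mul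
        (((hNc.pow 2).mul (Real.continuous_exp.comp hVc.neg)).mul (hVIc.pow 2)))
  rw [e1]
  have hpi2 : 0 ≤ 8 * π ^ 2 := by positivity
  calc ∫ θ in (-π)..π, Φ θ ^ 2 ≤ 4 * π + 8 * π ^ 2 * ∫ θ in (-π)..π, Φ' θ ^ 2 := key
    _ ≤ 4 * π + 8 * π ^ 2 * (4 * π
        + (1 / 2) * I1 (fun z => N z ^ 2 * Real.exp (-V z) * fderiv ℝ V z I ^ 2) s) := by
        rw [← e3]
        have := mul_le_mul_of_nonneg_left e2 hpi2
        linarith
    _ = _ := by ring

end Pool.Agent.W_MP_1759d0_gt
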