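import Pool.Agent.W_MP_1759d0_gt.Bound

/-! # The growth of the distance and the Hadamard order of the coordinate function -/

namespace Pool.Agent.W_MP_1759d0_gt

open Filter Set MeasureTheory Complex
open scoped Topology ContDiff Real

variable {lam : ℂ → ℝ}

/-- Uniform local bound of the integral of the inverse metric on the cylinder. -/
theorem box_bound (hsm : ContDiff ℝ 2 lam) (hpos : ∀ z, 0 < lam z) (hcomp : IsGComplete lam)
    {c : ℝ} (hc : 0 ≤ c)
    (hlow : ∀ z, 0 ≤ Laplacian.laplacian (fun z => Real.log (lam z)) z)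
    (hup : ∀ z, Laplacian.laplacian (fun z => Real.log (lam z)) z ≤ 2 * c * lam z) :
    ∃ s₀ C : ℝ, ∀ s₁, s₀ + 1 ≤ s₁ →
      I2 (s₁ - 1) (s₁ + 1) (fun z => Real.exp (-VV lam z)) ≤ C := by
  have hu := contDiff_log hsm hpos
  set s₀ : ℝ := -(Real.log (lam 0)) / 2 with hs₀
  set C₀ : ℝ := I1 (fun z => Real.exp (-VV lam z) * |fderiv ℝ (VV lam) z 1|) s₀ with hC₀
  set C₁ : ℝ := 2 * ((4 * π + 32 * π ^ 3 + 8 * π ^ 3 * (4 * c + 16)) * (30 * π)
    + 8 * π ^ 2 * C₀) with hC₁
  refine ⟨s₀, 4 * C₁, ?_⟩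
  intro s₁ hs₁
  have hV := contDiff_VV hsm hpos
  have hV1 : ContDiff ℝ 1 (VV lam) := hV.of_le (by norm_num)
  -- the cutoff
  obtain ⟨η, hη, hηs, hη0, hη1, hηone, hηg⟩ :=
    exists_cutoff hsm.continuous hpos hcomp (Real.exp (s₁ + 1))
  obtain ⟨R', hR'⟩ := hηs.isCompact.isBounded.subset_closedBall 0
  set S : ℝ := max (s₁ + 1) (Real.log (max (R' + 1) 1)) with hS
  have hSs : s₁ + 1 ≤ S := le_max_left _ _
  have hexpS : R' + 1 ≤ Real.exp S := by
    have h1 : Real.log (max (R' + 1) 1) ≤ S := le_max_right _ _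
    have h2 := Real.exp_le_exp.mpr h1
    rw [Real.exp_log (by positivity)] at h2
    exact (le_max_left _ _).trans h2
  set N : ℂ → ℝ := fun z => η (0 + exp z) with hN
  have hNc : ContDiff ℝ 1 N := hη.comp (contDiff_exp_add 0)
  have hNS : ∀ θ, N (pt S θ) = 0 := by
    intro θ
    simp only [hN]
    apply image_eq_zero_of_notMem_tsupport
    intro hmem
    have h1 := hR' hmem
    rw [zero_add, mem_closedBall_zero_iff, norm_exp_pt] at h1
    linarith
  have hNg : ∀ z v, ‖v‖ = 1 → fderiv ℝ N z v ^ 2 * Real.exp (-VV lam z) ≤ 1 := by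
    intro z v hv
    have h1 : |fderiv ℝ N z v| ≤ Real.sqrt (lam (exp z)) * ‖exp z‖ := by
      rw [hN, fderiv_comp_exp hη]
      have h2 := (fderiv ℝ η (0 + exp z)).le_opNorm (exp z * v)
      rw [norm_mul, hv, mul_one, Real.norm_eq_abs] at h2
      have h3 := hηg (0 + exp z)
      calc |fderiv ℝ η (0 + exp z) (exp z * v)| ≤ ‖fderiv ℝ η (0 + exp z)‖ * ‖exp z‖ := h2
        _ ≤ Real.sqrt (lam (0 + exp z)) * ‖exp z‖ :=
            mul_le_mul_of_nonneg_right h3 (norm_nonneg _)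
        _ = _ := by rw [zero_add]
    have h4 : fderiv ℝ N z v ^ 2 ≤ Real.exp (VV lam z) := by
      rw [exp_VV hpos, ← sq_abs]
      calc |fderiv ℝ N z v| ^ 2 ≤ (Real.sqrt (lam (exp z)) * ‖exp z‖) ^ 2 :=
            pow_le_pow_left₀ (abs_nonneg _) h1 2
        _ = lam (exp z) * ‖exp z‖ ^ 2 := by
            rw [mul_pow, Real.sq_sqrt (hpos _).le]
    have h5 := mul_le_mul_of_nonneg_right h4 (Real.exp_pos (-VV lam z)).le
    rw [← Real.exp_add] at h5
    simpa using h5
  have hmain := energy (w := wt s₁) (N := N) (V := VV lam) (c := c) (C₀ := C₀) (s₀ := s₀) (S := S)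
    (contDiff_wt s₁) (fun s => (wt_pos s₁ s).le) (wt_le_one s₁) (deriv_wt_sq s₁)
    (integral_wt_sq_le s₁ s₀ S (by linarith)) hc hV VV_per
    (fun s => fderiv_VV_per hsm hpos s I)
    (by
      intro z
      rw [laplacian_VV hsm hpos, exp_VV hpos]
      have := mul_le_mul_of_nonneg_left (hup (exp z)) (sq_nonneg ‖exp z‖)
      linarith)
    hNc (fun z => hη0 _) (fun z => hη1 _)
    (by
      intro s
      simp only [hN, exp_pt_pi])
    hNS (fun z => hNg z 1 (by simp)) (fun z => hNg z I (by simp))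
    (by
      intro s hs
      obtain ⟨θ, hθ, h1⟩ := exists_ge_center hu hlow 0 s
      refine ⟨θ, hθ, ?_⟩
      unfold VV
      rw [pt_re]
      have h2 : 2 * s₀ = -(Real.log (lam 0)) := by rw [hs₀]; ring
      linarith)
    (by linarith) le_rfl
  -- compare with the local integral
  have cE : Continuous (fun z => Real.exp (-VV lam z)) :=
    Real.continuous_exp.comp hV1.continuous.neg
  have cI : Continuous (I1 (fun z => Real.exp (-VV lam z))) := continuous_I1 cE
  have hW : ContDiff ℝ 1 (fun z : ℂ => wt s₁ z.re) := contDiff_comp_re (contDiff_wt s₁)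
  have cF : Continuous (fun z => wt s₁ z.re ^ 2 * (N z ^ 2 * Real.exp (-VV lam z))) :=
    (hW.continuous.pow 2).mul ((hNc.continuous.pow 2).mul cE)
  have cIF := continuous_I1 cF
  have hF0 : ∀ s, 0 ≤ I1 (fun z => wt s₁ z.re ^ 2 * (N z ^ 2 * Real.exp (-VV lam z))) s := by
    intro s
    apply I1_nonneg
    intro z
    positivity
  have hsub : I2 (s₁ - 1) (s₁ + 1) (fun z => wt s₁ z.re ^ 2 * (N z ^ 2 * Real.exp (-VV lam z)))
      ≤ I2 s₀ S (fun z => wt s₁ z.re ^ 2 * (N z ^ 2 * Real.exp (-VV lam z))) := by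
    unfold I2
    apply intervalIntegral.integral_mono_interval (by linarith) (by linarith) hSs
    · exact Eventually.of_forall hF0
    · exact cIF.intervalIntegrable _ _
  have hloc : I2 (s₁ - 1) (s₁ + 1) (fun z => (1 / 4) * Real.exp (-VV lam z))
      ≤ I2 (s₁ - 1) (s₁ + 1) (fun z => wt s₁ z.re ^ 2 * (N z ^ 2 * Real.exp (-VV lam z))) := by
    apply I2_mono (cE.const_mul _) cF (by linarith)
    intro s hs θ _
    rw [pt_re]
    have h1 : N (pt s θ) = 1 := by
      simp only [hN]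
      apply hηone
      rw [zero_add, norm_exp_pt]
      exact Real.exp_le_exp.mpr hs.2
    have h2 : 1 / 2 ≤ wt s₁ s := wt_ge_half (abs_le.mpr ⟨by linarith [hs.1], by linarith [hs.2]⟩)
    rw [h1, one_pow, one_mul]
    apply mul_le_mul_of_nonneg_right _ (Real.exp_pos _).le
    nlinarith
  rw [I2_const_mul] at hloc
  linarith

/-- The metric dominates a multiple of `|dz|² / |z|²` near infinity. -/
theorem metric_lower_bound (hsm : ContDiff ℝ 2 lam) (hpos : ∀ z, 0 < lam z)
    (hcomp : IsGComplete lam) {c : ℝ} (hc : 0 ≤ c)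
    (hlow : ∀ z, 0 ≤ Laplacian.laplacian (fun z => Real.log (lam z)) z)
    (hup : ∀ z, Laplacian.laplacian (fun z => Real.log (lam z)) z ≤ 2 * c * lam z) :
    ∃ R C : ℝ, 0 < C ∧ ∀ z, R ≤ ‖z‖ → 1 ≤ C * (lam z * ‖z‖ ^ 2) := by
  obtain ⟨s₀, C, hC⟩ := box_bound hsm hpos hcomp hc hlow hup
  have hV := contDiff_VV hsm hpos
  have hV1 : ContDiff ℝ 1 (VV lam) := hV.of_le (by norm_num)
  have hE : ContDiff ℝ 2 (fun z => Real.exp (-VV lam z)) := hV.neg.exp
  have hpi := Real.pi_pos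
  -- pointwise bound on the cylinder
  have hpt : ∀ s₁ θ₁, s₀ + 1 ≤ s₁ →
      Real.exp (-VV lam (pt s₁ θ₁)) ≤ C / π + c / 4 := by
    intro s₁ θ₁ hs
    have hk : ∀ z, -(2 * c) ≤ Laplacian.laplacian (fun z => Real.exp (-VV lam z)) z := by
      intro z
      rw [laplacian_exp_neg hV, laplacian_VV hsm hpos]
      have h1 : Real.exp (-VV lam z)
          * (‖exp z‖ ^ 2 * Laplacian.laplacian (fun z => Real.log (lam z)) (exp z)) ≤ 2 * c := by
        have h2 := mul_le_mul_of_nonneg_left (hup (exp z)) (sq_nonneg ‖exp z‖)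
        have h3 := mul_le_mul_of_nonneg_left h2 (Real.exp_pos (-VV lam z)).le
        have h4 : Real.exp (-VV lam z) * (‖exp z‖ ^ 2 * (2 * c * lam (exp z)))
            = 2 * c * (Real.exp (-VV lam z) * Real.exp (VV lam z)) := by
          rw [exp_VV hpos]; ring
        rw [h4, ← Real.exp_add] at h3
        simpa using h3
      have h5 : 0 ≤ Real.exp (-VV lam z)
          * (fderiv ℝ (VV lam) z 1 ^ 2 + fderiv ℝ (VV lam) z I ^ 2) := by positivity
      linarith
    have h1 := disc_polar_ge hE hk (pt s₁ θ₁)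
    have h2 := disc_le_box (F := fun z => Real.exp (-VV lam z)) hE.continuous
      (fun z => (Real.exp_pos _).le) (by
        intro s θ
        have : VV lam (pt s (θ + 2 * π)) = VV lam (pt s θ) := by
          unfold VV
          rw [pt_re, pt_re]
          have e : exp (pt s (θ + 2 * π)) = exp (pt s θ) := by
            unfold pt
            have e1 : (s : ℂ) + ((θ + 2 * π : ℝ) : ℂ) * I
                = (s : ℂ) + (θ : ℂ) * I + 2 * π * I := by
              push_cast; ring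
            rw [e1, Complex.exp_periodic]
          rw [e]
        simp only [this]) s₁ θ₁
    have h3 := hC s₁ hs
    have h4 : π * Real.exp (-VV lam (pt s₁ θ₁)) ≤ C + π / 4 * c := by linarith
    have h5 : C / π + c / 4 = (C + π / 4 * c) / π := by
      field_simp
    rw [h5, le_div_iff₀ hpi]
    linarith
  refine ⟨Real.exp (s₀ + 1), max (C / π + c / 4) 1, by positivity, ?_⟩
  intro z hz
  have hz0 : 0 < ‖z‖ := lt_of_lt_of_le (Real.exp_pos _) hz
  have hzne : z ≠ 0 := norm_pos_iff.mp hz0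
  have hlog : s₀ + 1 ≤ Real.log ‖z‖ := by
    rw [Real.le_log_iff_exp_le hz0]
    exact hz
  have hexp : exp (pt (Real.log ‖z‖) (arg z)) = z := by
    rw [exp_pt, Real.exp_log hz0, Complex.norm_mul_exp_arg_mul_I]
  have h1 := hpt (Real.log ‖z‖) (arg z) hlog
  have h2 := exp_VV hpos (pt (Real.log ‖z‖) (arg z))
  rw [hexp] at h2
  rw [← h2]
  have h3 : Real.exp (-VV lam (pt (Real.log ‖z‖) (arg z)))
      * Real.exp (VV lam (pt (Real.log ‖z‖) (arg z))) = 1 := by
    rw [← Real.exp_add]; simp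
  rw [← h3]
  apply mul_le_mul_of_nonneg_right _ (Real.exp_pos _).le
  exact h1.trans (le_max_left _ _)

/-- **The logarithm of the coordinate is bounded by a multiple of the distance.** -/
theorem log_le_gDist (hsm : ContDiff ℝ 2 lam) (hpos : ∀ z, 0 < lam z)
    (hcomp : IsGComplete lam) {c : ℝ} (hc : 0 ≤ c)
    (hlow : ∀ z, 0 ≤ Laplacian.laplacian (fun z => Real.log (lam z)) z)
    (hup : ∀ z, Laplacian.laplacian (fun z => Real.log (lam z)) z ≤ 2 * c * lam z) :
    ∃ C : ℝ, 0 < C ∧ ∀ p, Real.log (1 + ‖p‖ ^ 2) / 2 ≤ C * gDist lam p 0 := by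
  obtain ⟨R, C₁, hC₁, hbd⟩ := metric_lower_bound hsm hpos hcomp hc hlow hup
  have hρc : Continuous (fun z => Real.sqrt (lam z)) := hsm.continuous.sqrt
  -- lower bound of the metric on the ball
  obtain ⟨m, hm, hmK⟩ : ∃ m : ℝ, 0 < m ∧ ∀ z ∈ Metric.closedBall (0:ℂ) R,
      m ≤ Real.sqrt (lam z) := by
    rcases (Metric.closedBall (0:ℂ) R).eq_empty_or_nonempty with h | h
    · exact ⟨1, one_pos, by simp [h]⟩
    · obtain ⟨z₀, hz₀, hmin⟩ := (isCompact_closedBall (0:ℂ) R).exists_isMinOn h hρc.continuousOn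
      exact ⟨Real.sqrt (lam z₀), Real.sqrt_pos.mpr (hpos z₀), fun z hz => hmin hz⟩
  set Q : ℂ → ℝ := fun z => Real.log (1 + ‖z‖ ^ 2) / 2 with hQ
  have hns : ContDiff ℝ 1 (fun z : ℂ => 1 + ‖z‖ ^ 2) := contDiff_const.add (contDiff_norm_sq ℝ)
  have hQc : ContDiff ℝ 1 Q := (hns.log (fun z => by positivity)).div_const 2
  have hQd : ∀ z, ‖fderiv ℝ Q z‖ ≤ ‖z‖ / (1 + ‖z‖ ^ 2) := by
    intro z
    have hd : HasFDerivAt (fun z : ℂ => 1 + ‖z‖ ^ 2) (2 • (innerSL ℝ z)) z := by
      have := (hasStrictFDerivAt_norm_sq z).hasFDerivAt.const_add (1:ℝ)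
      exact this
    have h1 : HasFDerivAt Q _ z :=
      (hd.log (by positivity)).mul_const (1 / 2 : ℝ) |>.congr_of_eventuallyEq (by
        filter_upwards with x
        simp only [hQ]
        ring)
    rw [h1.fderiv]
    have e2 : (2 • (innerSL ℝ z)) = (2:ℝ) • (innerSL ℝ z) := by
      rw [two_nsmul, two_smul]
    rw [e2, norm_smul, norm_smul, norm_smul, innerSL_apply_norm, Real.norm_eq_abs,
      Real.norm_eq_abs, Real.norm_eq_abs, abs_of_pos (by norm_num : (0:ℝ) < 1 / 2),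
      abs_of_pos (by positivity : 0 < (1 + ‖z‖ ^ 2)⁻¹), abs_of_pos (by norm_num : (0:ℝ) < 2)]
    apply le_of_eq
    field_simp
  set C : ℝ := max (1 / m) (Real.sqrt C₁) with hC
  have hCpos : 0 < C := lt_of_lt_of_le (by positivity) (le_max_left _ _)
  have hgrad : ∀ z, ‖fderiv ℝ Q z‖ ≤ C * Real.sqrt (lam z) := by
    intro z
    refine (hQd z).trans ?_
    have hlam := Real.sqrt_pos.mpr (hpos z)
    rcases le_total ‖z‖ R with hz | hz
    · have h1 := hmK z (by simpa using hz)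
      have h2 : ‖z‖ / (1 + ‖z‖ ^ 2) ≤ 1 := by
        rw [div_le_one (by positivity)]
        nlinarith [sq_nonneg (‖z‖ - 1)]
      have h3 : 1 ≤ (1 / m) * Real.sqrt (lam z) := by
        rw [one_div, inv_mul_eq_div, one_le_div hm]
        exact h1
      have h4 : (1 / m) * Real.sqrt (lam z) ≤ C * Real.sqrt (lam z) :=
        mul_le_mul_of_nonneg_right (le_max_left _ _) hlam.le
      linarith
    · have h1 := hbd z hz
      have hz0 : 0 < ‖z‖ ^ 2 := by
        rcases eq_or_lt_of_le (sq_nonneg ‖z‖) with h | h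
        · rw [← h] at h1
          norm_num at h1
        · exact h
      have h2 : (‖z‖ / (1 + ‖z‖ ^ 2)) ^ 2 ≤ C₁ * lam z := by
        have h3 : (‖z‖ / (1 + ‖z‖ ^ 2)) ^ 2 * ‖z‖ ^ 2 ≤ 1 := by
          have e : (‖z‖ / (1 + ‖z‖ ^ 2)) ^ 2 * ‖z‖ ^ 2 = (‖z‖ ^ 2 / (1 + ‖z‖ ^ 2)) ^ 2 := by
            field_simp
          rw [e]
          apply pow_le_one₀ (by positivity)
          rw [div_le_one (by positivity)]
          linarith
        have h4 : (‖z‖ / (1 + ‖z‖ ^ 2)) ^ 2 * ‖z‖ ^ 2 ≤ (C₁ * lam z) * ‖z‖ ^ 2 := by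
          linarith
        exact le_of_mul_le_mul_right h4 hz0
      have h5 : ‖z‖ / (1 + ‖z‖ ^ 2) ≤ Real.sqrt C₁ * Real.sqrt (lam z) := by
        rw [← Real.sqrt_mul hC₁.le]
        exact Real.le_sqrt_of_sq_le h2
      exact h5.trans (mul_le_mul_of_nonneg_right (le_max_right _ _) hlam.le)
  refine ⟨C, hCpos, ?_⟩
  intro p
  have h1 := abs_sub_le_gDist hsm.continuous hQc hCpos.le hgrad 0 p
  have h2 : Q 0 = 0 := by simp [hQ]
  rw [h2, sub_zero, gDist_comm 0 p] at h1
  exact (le_abs_self _).trans h1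

/-- **The coordinate function has Hadamard order at most one.** -/
theorem hadamardOrder_id_le (hsm : ContDiff ℝ 2 lam) (hpos : ∀ z, 0 < lam z)
    (hcomp : IsGComplete lam) {c : ℝ} (hc : 0 ≤ c)
    (hlow : ∀ z, 0 ≤ Laplacian.laplacian (fun z => Real.log (lam z)) z)
    (hup : ∀ z, Laplacian.laplacian (fun z => Real.log (lam z)) z ≤ 2 * c * lam z) :
    hadamardOrder lam (fun z => z) ≤ 1 := by
  obtain ⟨C, hC, hbd⟩ := log_le_gDist hsm hpos hcomp hc hlow hup
  have hlogle : ∀ p : ℂ, 1 < ‖p‖ → Real.log ‖p‖ ≤ C * gDist lam p 0 := by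
    intro p hp
    refine le_trans ?_ (hbd p)
    have h1 : Real.log (‖p‖ ^ 2) ≤ Real.log (1 + ‖p‖ ^ 2) :=
      Real.log_le_log (by positivity) (by linarith)
    rw [Real.log_pow] at h1
    push_cast at h1
    linarith
  have hlogtop : Tendsto (fun p : ℂ => Real.log ‖p‖) (cocompact ℂ) atTop :=
    Real.tendsto_log_atTop.comp (tendsto_norm_cocompact_atTop)
  rw [show (1 : EReal) = ((1:ℝ) : EReal) from rfl]
  rw [← EReal.le_of_forall_lt_iff_le]
  intro y hy
  have hy1 : (1:ℝ) < y := by exact_mod_cast hy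
  unfold hadamardOrder
  apply limsup_le_of_le
  · isBoundedDefault
  -- choose the threshold
  have hev : ∀ᶠ p : ℂ in cocompact ℂ,
      C * Real.exp (|Real.log C| / (y - 1) + 1) ≤ Real.log ‖p‖ := hlogtop.eventually_ge_atTop _
  rw [eventually_inf_principal]
  filter_upwards [hev] with p hp1 hp2
  rw [EReal.coe_le_coe_iff]
  have hp2' : 1 < ‖p‖ := hp2
  have h1 := hlogle p hp2'
  have hlogpos : 0 < Real.log ‖p‖ := Real.log_pos hp2'
  have hd1 : Real.exp (|Real.log C| / (y - 1) + 1) ≤ gDist lam p 0 := by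
    have := hp1.trans h1
    exact le_of_mul_le_mul_left this hC
  have hdpos : 0 < gDist lam p 0 := lt_of_lt_of_le (Real.exp_pos _) hd1
  have hlogd : |Real.log C| / (y - 1) + 1 ≤ Real.log (gDist lam p 0) := by
    rw [Real.le_log_iff_exp_le hdpos]
    exact hd1
  have hy0 : 0 < y - 1 := by linarith
  have habs : 0 ≤ |Real.log C| / (y - 1) := by positivity
  have hlogdpos : 0 < Real.log (gDist lam p 0) := by linarith
  rw [div_le_iff₀ hlogdpos]
  have h2 : Real.log (Real.log ‖p‖) ≤ Real.log C + Real.log (gDist lam p 0) := by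
    rw [← Real.log_mul hC.ne' hdpos.ne']
    exact Real.log_le_log hlogpos h1
  have h3 : |Real.log C| ≤ (y - 1) * Real.log (gDist lam p 0) := by
    have h4 : |Real.log C| / (y - 1) ≤ Real.log (gDist lam p 0) := by linarith
    rw [div_le_iff₀ hy0] at h4
    linarith
  have h5 := le_abs_self (Real.log C)
  linarith

end Pool.Agent.W_MP_1759d0_gt
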