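import Pool.Agent.W_MP_1759d0_gt.Dist

/-! # Complete conformal metrics on the plane are proper (Hopf-Rinow, Cohn-Vossen) -/

namespace Pool.Agent.W_MP_1759d0_gt

open Filter Set MeasureTheory Bornology
open scoped Topology ContDiff

variable {lam : ℂ → ℝ}

lemma gDist_locally_small (hl : Continuous lam) (p : ℂ) :
    ∃ M : ℝ, 0 < M ∧ ∀ x ∈ Metric.closedBall p 1, ∀ y ∈ Metric.closedBall p 1,
      gDist lam x y ≤ M * ‖y - x‖ := by
  have hK : IsCompact (Metric.closedBall p (1:ℝ)) := isCompact_closedBall p 1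
  obtain ⟨M, hM⟩ := hK.exists_bound_of_continuousOn (f := fun z => Real.sqrt (lam z))
    (hl.sqrt).continuousOn
  refine ⟨max M 1, by positivity, ?_⟩
  intro x hx y hy
  apply gDist_le_of_bound _ hl
  intro z hz
  have hz' : z ∈ Metric.closedBall p (1:ℝ) :=
    (convex_closedBall p 1).segment_subset hx hy hz
  have := hM z hz'
  rw [Real.norm_eq_abs] at this
  exact (le_abs_self _).trans (this.trans (le_max_left _ _))

lemma gDist_self_eventually (hl : Continuous lam) (p : ℂ) {ε : ℝ} (hε : 0 < ε) :
    ∀ᶠ x in 𝓝 p, gDist lam p x < ε := by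
  obtain ⟨M, hM, h⟩ := gDist_locally_small hl p
  have h1 : Metric.ball p (min 1 (ε / M)) ∈ 𝓝 p := Metric.ball_mem_nhds _ (by positivity)
  filter_upwards [h1] with x hx
  rw [Metric.mem_ball, dist_eq_norm] at hx
  have h2 := h p (by simp) x (by
    rw [Metric.mem_closedBall, dist_eq_norm]; exact (hx.trans_le (min_le_left _ _)).le)
  have h3 : ‖x - p‖ < ε / M := hx.trans_le (min_le_right _ _)
  calc gDist lam p x ≤ M * ‖x - p‖ := h2
    _ < M * (ε / M) := by gcongr
    _ = ε := by field_simp

lemma continuous_gDist (hl : Continuous lam) (p : ℂ) : Continuous (gDist lam p) := by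
  rw [continuous_iff_continuousAt]
  intro q
  rw [ContinuousAt, Metric.tendsto_nhds]
  intro ε hε
  filter_upwards [gDist_self_eventually hl q hε] with x hx
  rw [Real.dist_eq, abs_lt]
  have h1 := gDist_triangle hl p q x
  have h2 := gDist_triangle hl p x q
  rw [gDist_comm x q] at h2
  constructor <;> linarith

/-- Small balls of the metric are bounded. -/
lemma exists_bounded_ball (hl : Continuous lam) (hpos : ∀ z, 0 < lam z) (p : ℂ) :
    ∃ r : ℝ, 0 < r ∧ {q | gDist lam p q < r} ⊆ Metric.ball p 1 := by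
  let f : ContDiffBump p := ⟨1 / 2, 1, by norm_num, by norm_num⟩
  have hf : ContDiff ℝ 1 f := f.contDiff
  have hK : IsCompact (Metric.closedBall p (1:ℝ)) := isCompact_closedBall p 1
  have hcont : Continuous (fun z => ‖fderiv ℝ f z‖ / Real.sqrt (lam z)) := by
    apply ((hf.continuous_fderiv one_ne_zero).norm).div (hl.sqrt)
    intro z
    exact (Real.sqrt_pos.mpr (hpos z)).ne'
  obtain ⟨M, hM⟩ := hK.exists_bound_of_continuousOn hcont.continuousOn
  have hC : (0:ℝ) < max M 1 := by positivity
  have hgrad : ∀ z, ‖fderiv ℝ f z‖ ≤ max M 1 * Real.sqrt (lam z) := by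
    intro z
    by_cases hz : z ∈ Metric.closedBall p (1:ℝ)
    · have h1 := hM z hz
      have h2 := Real.sqrt_pos.mpr (hpos z)
      rw [Real.norm_eq_abs, abs_of_nonneg (by positivity), div_le_iff₀ h2] at h1
      exact h1.trans (mul_le_mul_of_nonneg_right (le_max_left _ _) h2.le)
    · have h1 : z ∉ tsupport f := by
        rw [f.tsupport_eq]
        exact hz
      have h2 : fderiv ℝ f z = 0 := by
        have := support_fderiv_subset ℝ (f := (f : ℂ → ℝ))
        by_contra hne
        exact h1 (this hne)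
      rw [h2, norm_zero]
      positivity
  refine ⟨1 / max M 1, by positivity, ?_⟩
  intro q hq
  by_contra hq1
  rw [mem_ofPred_eq] at hq
  have h0 : f q = 0 := by
    apply f.zero_of_le_dist
    simpa [Metric.mem_ball, not_lt] using hq1
  have h1 : f p = 1 := by
    apply f.one_of_mem_closedBall
    simp [f]
  have h2 := abs_sub_le_gDist hl hf hC.le hgrad p q
  rw [h0, h1] at h2
  norm_num at h2
  rw [lt_div_iff₀ hC] at hq
  linarith [mul_comm (max M 1) (gDist lam p q)]

/-- The main step of the Hopf-Rinow argument. -/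
lemma hopf_step (hl : Continuous lam) {q : ℂ} {r : ℝ}
    (hr : ¬ IsBounded {z | gDist lam q z < r}) :
    ∃ q', gDist lam q q' ≤ r ∧ ¬ IsBounded {z | gDist lam q' z < r / 2} := by
  set S : Set ℝ := {t | ¬ IsBounded {z | gDist lam q z < t}} with hS
  have hup : ∀ t ∈ S, ∀ t', t ≤ t' → t' ∈ S := by
    intro t ht t' htt' hb
    exact ht (hb.subset (fun z hz => lt_of_lt_of_le hz htt'))
  have hpos : ∀ t ∈ S, 0 < t := by
    intro t ht
    by_contra h
    apply ht
    have : {z | gDist lam q z < t} = ∅ := by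
      ext z
      simp only [mem_ofPred_eq, mem_empty_iff_false, iff_false, not_lt]
      exact (not_lt.mp h).trans (gDist_nonneg q z)
    rw [this]
    exact isBounded_empty
  have hrpos : 0 < r := hpos r hr
  have hbdd : BddBelow S := ⟨0, fun t ht => (hpos t ht).le⟩
  by_cases hhalf : r / 2 ∈ S
  · refine ⟨q, ?_, hhalf⟩
    have : gDist lam q q ≤ 0 := by
      obtain ⟨M, hM, h⟩ := gDist_locally_small hl q
      simpa using h q (by simp) q (by simp)
    linarith
  set R := sInf S with hR
  have hRr : R ≤ r := csInf_le hbdd hr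
  have hRhalf : r / 2 ≤ R := by
    apply le_csInf ⟨r, hr⟩
    intro t ht
    by_contra h
    exact hhalf (hup t ht _ (not_le.mp h).le)
  set ε := r / 2 with hε
  have hεpos : 0 < ε := by positivity
  have hr1 : R - ε / 4 ∉ S := by
    intro h
    have := csInf_le hbdd h
    linarith
  have hr1' : IsBounded {z | gDist lam q z < R - ε / 4} := by
    by_contra h
    exact hr1 h
  have hr2 : R + ε / 4 ∈ S := by
    obtain ⟨t, ht, htR⟩ := exists_lt_of_csInf_lt ⟨r, hr⟩ (show sInf S < R + ε / 4 by linarith)
    exact hup t ht _ htR.le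
  have hcont := continuous_gDist hl q
  have hKc : IsCompact (closure {z | gDist lam q z < R - ε / 4}) :=
    hr1'.isCompact_closure
  have hKd : ∀ x ∈ closure {z | gDist lam q z < R - ε / 4}, gDist lam q x ≤ R - ε / 4 := by
    intro x hx
    have : closure {z | gDist lam q z < R - ε / 4} ⊆ {z | gDist lam q z ≤ R - ε / 4} :=
      closure_minimal (fun z hz => (show gDist lam q z ≤ R - ε / 4 from le_of_lt hz))
        (isClosed_le hcont continuous_const)
    exact this hx
  by_contra hcon
  push Not at hcon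
  have hbd : ∀ x ∈ closure {z | gDist lam q z < R - ε / 4},
      IsBounded {z | gDist lam x z < ε} := by
    intro x hx
    apply hcon x
    linarith [hKd x hx]
  obtain ⟨t, htK, htcov⟩ := hKc.elim_nhds_subcover (fun x => {y | gDist lam x y < ε / 4})
    (fun x _ => gDist_self_eventually hl x (by positivity))
  apply hr2
  have hb1 : IsBounded (⋃ x ∈ t, {z | gDist lam x z < ε}) :=
    (isBounded_biUnion_finset t).2 (fun x hx => hbd x (htK x hx))
  apply (hr1'.union hb1).subset
  intro z hz
  rw [mem_ofPred_eq] at hz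
  obtain ⟨γ, hγ, h0, h1, hL⟩ := exists_path_lt hz
  by_cases hlt : gLength lam γ < R - ε / 4
  · left
    have := gDist_le_gLength (lam := lam) hγ
    rw [h0, h1] at this
    exact lt_of_le_of_lt this hlt
  · right
    push Not at hlt
    have hcl : Continuous (fun t => len lam γ 0 t) := by
      unfold len
      exact intervalIntegral.continuous_primitive
        (fun a b => (continuous_integrand hl hγ).intervalIntegrable a b) 0
    have hivt := intermediate_value_Icc (zero_le_one' ℝ) hcl.continuousOn
    have hmem : R - ε / 2 ∈ Icc (len lam γ 0 0) (len lam γ 0 1) := by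
      constructor
      · simp only [len, intervalIntegral.integral_same]
        linarith
      · rw [← gLength_eq_len]
        linarith
    obtain ⟨s, hs, hseq⟩ := hivt hmem
    simp only at hseq
    have hd1 : gDist lam q (γ s) ≤ R - ε / 2 := by
      rw [← h0, ← hseq]
      exact gDist_le_len hl hγ hs.1
    have hd2 : gDist lam (γ s) z ≤ len lam γ s 1 := by
      rw [← h1]
      exact gDist_le_len hl hγ hs.2
    have hadd := len_add hl hγ 0 s 1
    rw [hseq, ← gLength_eq_len] at hadd
    have hmemK : γ s ∈ closure {z | gDist lam q z < R - ε / 4} := by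
      apply subset_closure
      rw [mem_ofPred_eq]
      linarith
    obtain ⟨x, hx⟩ := mem_iUnion.mp (htcov hmemK)
    obtain ⟨hxt, hx2⟩ := mem_iUnion.mp hx
    rw [mem_ofPred_eq] at hx2
    apply mem_iUnion.mpr
    refine ⟨x, mem_iUnion.mpr ⟨hxt, ?_⟩⟩
    rw [mem_ofPred_eq]
    have := gDist_triangle hl x (γ s) z
    linarith

/-- **Hopf-Rinow**: balls of a complete conformal metric are bounded. -/
theorem isBounded_ball_of_complete (hl : Continuous lam) (hpos : ∀ z, 0 < lam z)
    (hcomp : IsGComplete lam) (p : ℂ) (r : ℝ) : IsBounded {q | gDist lam p q < r} := by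
  by_contra hnb
  -- build the sequence
  let T := {x : ℂ × ℝ // ¬ IsBounded {z | gDist lam x.1 z < x.2}}
  have hstep : ∀ x : T, ∃ y : T, gDist lam x.1.1 y.1.1 ≤ x.1.2 ∧ y.1.2 = x.1.2 / 2 := by
    intro x
    obtain ⟨q', h1, h2⟩ := hopf_step hl x.2
    exact ⟨⟨(q', x.1.2 / 2), h2⟩, h1, rfl⟩
  choose F hF1 hF2 using hstep
  let x0 : T := ⟨(p, r), hnb⟩
  let u : ℕ → T := fun n => Nat.rec x0 (fun _ x => F x) n
  have hu0 : u 0 = x0 := rfl
  have hus : ∀ n, u (n + 1) = F (u n) := fun n => rfl
  have hrad : ∀ n, (u n).1.2 = r / 2 ^ n := by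
    intro n
    induction n with
    | zero => simp [hu0, x0]
    | succ n ih => rw [hus, hF2, ih, pow_succ]; ring
  have hdist : ∀ n, gDist lam (u n).1.1 (u (n + 1)).1.1 ≤ r / 2 ^ n := by
    intro n
    rw [← hrad, hus]
    exact hF1 (u n)
  have hrpos : 0 < r := by
    by_contra h
    apply hnb
    have : {z | gDist lam p z < r} = ∅ := by
      ext z
      simp only [mem_ofPred_eq, mem_empty_iff_false, iff_false, not_lt]
      exact (not_lt.mp h).trans (gDist_nonneg p z)
    rw [this]
    exact isBounded_empty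
  have hself : ∀ z, gDist lam z z ≤ 0 := by
    intro z
    obtain ⟨M, hM, h⟩ := gDist_locally_small hl z
    simpa using h z (by simp) z (by simp)
  have hdist2 : ∀ n k, gDist lam (u n).1.1 (u (n + k)).1.1 ≤ 2 * r / 2 ^ n - 2 * r / 2 ^ (n + k) := by
    intro n k
    induction k with
    | zero => simpa using hself _
    | succ k ih =>
      have h1 := gDist_triangle hl (u n).1.1 (u (n + k)).1.1 (u (n + k + 1)).1.1
      have h2 := hdist (n + k)
      have h3 : (2 : ℝ) * r / 2 ^ (n + k) - 2 * r / 2 ^ (n + (k + 1)) = r / 2 ^ (n + k) := by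
        rw [← add_assoc, pow_succ (2:ℝ) (n + k)]
        field_simp
        ring
      have h4 : n + (k + 1) = n + k + 1 := rfl
      rw [h4] at h3 ⊢
      linarith
  have hpow : Tendsto (fun n : ℕ => 2 * r / 2 ^ n) atTop (𝓝 0) := by
    have h1 : Tendsto (fun n : ℕ => ((1:ℝ) / 2) ^ n) atTop (𝓝 0) :=
      tendsto_pow_atTop_nhds_zero_of_lt_one (by norm_num) (by norm_num)
    have h2 := h1.const_mul (2 * r)
    rw [mul_zero] at h2
    refine h2.congr (fun n => ?_)
    rw [one_div, inv_pow]
    rfl
  have hcauchy : ∀ ε : ℝ, 0 < ε → ∃ N : ℕ, ∀ m ≥ N, ∀ n ≥ N,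
      gDist lam (u m).1.1 (u n).1.1 < ε := by
    intro ε hε
    obtain ⟨N, hN⟩ := (eventually_atTop.mp (hpow.eventually (gt_mem_nhds hε)))
    have key : ∀ m ≥ N, ∀ n ≥ m, gDist lam (u m).1.1 (u n).1.1 < ε := by
      intro m hm n hn
      obtain ⟨k, rfl⟩ := Nat.exists_eq_add_of_le hn
      have h1 := hdist2 m k
      have h2 := hN m hm
      have h3 : 0 ≤ 2 * r / 2 ^ (m + k) := by positivity
      linarith
    refine ⟨N, fun m hm n hn => ?_⟩
    rcases le_total m n with h | h
    · exact key m hm n h
    · rw [gDist_comm]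
      exact key n hn m h
  obtain ⟨a, ha⟩ := hcomp (fun n => (u n).1.1) hcauchy
  obtain ⟨ra, hra, hball⟩ := exists_bounded_ball hl hpos a
  have e1 := ha.eventually (gt_mem_nhds (show (0:ℝ) < ra / 2 by positivity))
  have e2 := hpow.eventually (gt_mem_nhds (show (0:ℝ) < ra / 2 by positivity))
  obtain ⟨n, hn1, hn2⟩ := (e1.and e2).exists
  apply (u n).2
  apply (Metric.isBounded_ball (x := a) (r := 1)).subset
  refine Subset.trans ?_ hball
  intro z hz
  rw [mem_ofPred_eq] at hz ⊢
  rw [hrad n] at hz
  have h1 := gDist_triangle hl a (u n).1.1 z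
  rw [gDist_comm a (u n).1.1] at h1
  have h3 : r / 2 ^ n ≤ 2 * r / 2 ^ n := by
    apply div_le_div_of_nonneg_right _ (by positivity)
    linarith
  linarith

end Pool.Agent.W_MP_1759d0_gt
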