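import Pool.Agent.W_MP_1759d0_gt.Defs

/-! # Calculus on the cylinder `ζ = s + i θ` -/

namespace Pool.Agent.W_MP_1759d0_gt

open Filter Set MeasureTheory Complex
open scoped Topology ContDiff Real

/-- The point `s + i θ`. -/
noncomputable def pt (s θ : ℝ) : ℂ := (s : ℂ) + (θ : ℂ) * I

lemma continuous_pt : Continuous (fun p : ℝ × ℝ => pt p.1 p.2) := by
  unfold pt
  fun_prop

lemma hasDerivAt_pt_fst (s θ : ℝ) : HasDerivAt (fun s => pt s θ) 1 s := by
  unfold pt
  have h1 : HasDerivAt (fun t : ℝ => (t : ℂ)) 1 s := Complex.ofRealCLM.hasDerivAt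
  exact h1.add_const _

lemma hasDerivAt_pt_snd (s θ : ℝ) : HasDerivAt (fun θ => pt s θ) I θ := by
  unfold pt
  have h1 : HasDerivAt (fun t : ℝ => (t : ℂ)) 1 θ := Complex.ofRealCLM.hasDerivAt
  have h2 := (h1.mul_const I).const_add (s : ℂ)
  simpa using h2

lemma hasDerivAt_comp_fst {X : ℂ → ℝ} (hX : ContDiff ℝ 1 X) (s θ : ℝ) :
    HasDerivAt (fun s => X (pt s θ)) (fderiv ℝ X (pt s θ) 1) s :=
  ((hX.differentiable one_ne_zero (pt s θ)).hasFDerivAt).comp_hasDerivAt s
    (hasDerivAt_pt_fst s θ)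

lemma hasDerivAt_comp_snd {X : ℂ → ℝ} (hX : ContDiff ℝ 1 X) (s θ : ℝ) :
    HasDerivAt (fun θ => X (pt s θ)) (fderiv ℝ X (pt s θ) I) θ :=
  ((hX.differentiable one_ne_zero (pt s θ)).hasFDerivAt).comp_hasDerivAt θ
    (hasDerivAt_pt_snd s θ)

lemma continuous_comp_pt {X : ℂ → ℝ} (hX : Continuous X) :
    Continuous (fun p : ℝ × ℝ => X (pt p.1 p.2)) := hX.comp continuous_pt

lemma continuous_comp_pt_fst {X : ℂ → ℝ} (hX : Continuous X) (θ : ℝ) :
    Continuous (fun s => X (pt s θ)) :=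
  (continuous_comp_pt hX).comp (continuous_id.prodMk continuous_const)

lemma continuous_comp_pt_snd {X : ℂ → ℝ} (hX : Continuous X) (s : ℝ) :
    Continuous (fun θ => X (pt s θ)) :=
  (continuous_comp_pt hX).comp (continuous_const.prodMk continuous_id)

lemma continuous_fderiv_apply {X : ℂ → ℝ} (hX : ContDiff ℝ 1 X) (v : ℂ) :
    Continuous (fun z => fderiv ℝ X z v) :=
  (hX.continuous_fderiv one_ne_zero).clm_apply continuous_const

lemma integral_fst {X : ℂ → ℝ} (hX : ContDiff ℝ 1 X) (a b θ : ℝ) :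
    ∫ s in a..b, fderiv ℝ X (pt s θ) 1 = X (pt b θ) - X (pt a θ) :=
  intervalIntegral.integral_eq_sub_of_hasDerivAt (fun s _ => hasDerivAt_comp_fst hX s θ)
    ((continuous_comp_pt_fst (continuous_fderiv_apply hX 1) θ).intervalIntegrable _ _)

lemma integral_snd {X : ℂ → ℝ} (hX : ContDiff ℝ 1 X) (a b s : ℝ) :
    ∫ θ in a..b, fderiv ℝ X (pt s θ) I = X (pt s b) - X (pt s a) :=
  intervalIntegral.integral_eq_sub_of_hasDerivAt (fun θ _ => hasDerivAt_comp_snd hX s θ)
    ((continuous_comp_pt_snd (continuous_fderiv_apply hX I) s).intervalIntegrable _ _)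

/-- The integral over the circle with coordinate `s`. -/
noncomputable def I1 (F : ℂ → ℝ) (s : ℝ) : ℝ := ∫ θ in (-π)..π, F (pt s θ)

/-- The integral over the cylinder `a ≤ s ≤ b`. -/
noncomputable def I2 (a b : ℝ) (F : ℂ → ℝ) : ℝ := ∫ s in a..b, I1 F s

lemma continuous_I1 {F : ℂ → ℝ} (hF : Continuous F) : Continuous (I1 F) := by
  unfold I1
  exact intervalIntegral.continuous_parametric_intervalIntegral_of_continuous'
    (f := fun s θ => F (pt s θ)) (continuous_comp_pt hF) _ _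

lemma I1_add {F G : ℂ → ℝ} (hF : Continuous F) (hG : Continuous G) (s : ℝ) :
    I1 (fun z => F z + G z) s = I1 F s + I1 G s :=
  intervalIntegral.integral_add ((continuous_comp_pt_snd hF s).intervalIntegrable _ _)
    ((continuous_comp_pt_snd hG s).intervalIntegrable _ _)

lemma I1_const_mul (c : ℝ) (F : ℂ → ℝ) (s : ℝ) : I1 (fun z => c * F z) s = c * I1 F s :=
  intervalIntegral.integral_const_mul _ _

lemma neg_pi_le_pi : -π ≤ π := by linarith [Real.pi_pos]

lemma I1_mono {F G : ℂ → ℝ} (hF : Continuous F) (hG : Continuous G) {s : ℝ}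
    (h : ∀ θ ∈ Icc (-π) π, F (pt s θ) ≤ G (pt s θ)) : I1 F s ≤ I1 G s :=
  intervalIntegral.integral_mono_on neg_pi_le_pi
    ((continuous_comp_pt_snd hF s).intervalIntegrable _ _)
    ((continuous_comp_pt_snd hG s).intervalIntegrable _ _) h

lemma I1_nonneg {F : ℂ → ℝ} {s : ℝ} (h : ∀ z, 0 ≤ F z) : 0 ≤ I1 F s :=
  intervalIntegral.integral_nonneg neg_pi_le_pi (fun _ _ => h _)

lemma I1_const (c s : ℝ) : I1 (fun _ => c) s = 2 * π * c := by
  simp only [I1, intervalIntegral.integral_const, smul_eq_mul]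
  ring

lemma I2_add {F G : ℂ → ℝ} (hF : Continuous F) (hG : Continuous G) (a b : ℝ) :
    I2 a b (fun z => F z + G z) = I2 a b F + I2 a b G := by
  unfold I2
  rw [← intervalIntegral.integral_add ((continuous_I1 hF).intervalIntegrable _ _)
    ((continuous_I1 hG).intervalIntegrable _ _)]
  apply intervalIntegral.integral_congr
  intro s _
  exact I1_add hF hG s

lemma I2_const_mul (c : ℝ) (F : ℂ → ℝ) (a b : ℝ) :
    I2 a b (fun z => c * F z) = c * I2 a b F := by
  unfold I2
  rw [← intervalIntegral.integral_const_mul]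
  apply intervalIntegral.integral_congr
  intro s _
  exact I1_const_mul c F s

lemma I2_mono {F G : ℂ → ℝ} (hF : Continuous F) (hG : Continuous G) {a b : ℝ} (hab : a ≤ b)
    (h : ∀ s ∈ Icc a b, ∀ θ ∈ Icc (-π) π, F (pt s θ) ≤ G (pt s θ)) : I2 a b F ≤ I2 a b G :=
  intervalIntegral.integral_mono_on hab ((continuous_I1 hF).intervalIntegrable _ _)
    ((continuous_I1 hG).intervalIntegrable _ _) (fun s hs => I1_mono hF hG (h s hs))

/-- The divergence theorem on the cylinder. -/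
lemma I2_div {X Z : ℂ → ℝ} (hX : ContDiff ℝ 1 X) (hZ : ContDiff ℝ 1 Z)
    (hper : ∀ s, Z (pt s π) = Z (pt s (-π))) (a b : ℝ) :
    I2 a b (fun z => fderiv ℝ X z 1 + fderiv ℝ Z z I) = I1 X b - I1 X a := by
  have hXc := continuous_fderiv_apply hX 1
  have hZc := continuous_fderiv_apply hZ I
  rw [I2_add hXc hZc]
  have h1 : I2 a b (fun z => fderiv ℝ Z z I) = 0 := by
    unfold I2
    have : ∀ s, I1 (fun z => fderiv ℝ Z z I) s = 0 := by
      intro s
      unfold I1
      rw [integral_snd hZ, hper, sub_self]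
    simp [this]
  rw [h1, add_zero]
  unfold I2 I1
  rw [intervalIntegral_intervalIntegral_swap]
  · rw [← intervalIntegral.integral_sub
      ((continuous_comp_pt_snd hX.continuous b).intervalIntegrable _ _)
      ((continuous_comp_pt_snd hX.continuous a).intervalIntegrable _ _)]
    apply intervalIntegral.integral_congr
    intro θ _
    exact integral_fst hX a b θ
  · have hc : Continuous (Function.uncurry fun s θ => fderiv ℝ X (pt s θ) 1) :=
      continuous_comp_pt hXc
    have hcomp : IsCompact (uIcc a b ×ˢ uIcc (-π) π) := isCompact_uIcc.prod isCompact_uIcc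
    exact (hc.continuousOn.integrableOn_compact hcomp).mono_set
      (Set.prod_mono uIoc_subset_uIcc uIoc_subset_uIcc)

/-! ### Second derivatives and composition with the exponential -/

lemma laplacian_eq_fderiv (F : ℂ → ℝ) (z : ℂ) :
    Laplacian.laplacian F z = fderiv ℝ (fderiv ℝ F) z 1 1 + fderiv ℝ (fderiv ℝ F) z I I := by
  have := congrFun (InnerProductSpace.laplacian_eq_iteratedFDeriv_complexPlane F) z
  rw [this]
  simp [iteratedFDeriv_two_apply]

lemma fderiv_fderiv_apply {F : ℂ → ℝ} (hF : ContDiff ℝ 2 F) (z v w : ℂ) :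
    fderiv ℝ (fun z => fderiv ℝ F z v) z w = fderiv ℝ (fderiv ℝ F) z w v := by
  have h1 : ContDiff ℝ 1 (fderiv ℝ F) := hF.fderiv_right (by norm_num)
  have h2 : HasFDerivAt (fun z => fderiv ℝ F z v)
      ((ContinuousLinearMap.apply ℝ ℝ v).comp (fderiv ℝ (fderiv ℝ F) z)) z := by
    have h3 := (h1.differentiable one_ne_zero z).hasFDerivAt
    exact (ContinuousLinearMap.apply ℝ ℝ v).hasFDerivAt.comp z h3
  rw [h2.fderiv]
  simp

lemma laplacian_eq_fderiv' {F : ℂ → ℝ} (hF : ContDiff ℝ 2 F) (z : ℂ) :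
    Laplacian.laplacian F z = fderiv ℝ (fun z => fderiv ℝ F z 1) z 1
      + fderiv ℝ (fun z => fderiv ℝ F z I) z I := by
  rw [laplacian_eq_fderiv, fderiv_fderiv_apply hF, fderiv_fderiv_apply hF]

lemma contDiff_fderiv_apply {F : ℂ → ℝ} (hF : ContDiff ℝ 2 F) (v : ℂ) :
    ContDiff ℝ 1 (fun z => fderiv ℝ F z v) := by
  have h1 : ContDiff ℝ 1 (fderiv ℝ F) := hF.fderiv_right (by norm_num)
  exact h1.clm_apply contDiff_const

lemma hasFDerivAt_exp_add (z₀ z : ℂ) :
    HasFDerivAt (fun z => z₀ + exp z)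
      ((ContinuousLinearMap.mul ℝ ℂ) (exp z)) z := by
  have h1 : HasDerivAt (fun z => z₀ + exp z) (exp z) z := (Complex.hasDerivAt_exp z).const_add z₀
  have h2 := h1.hasFDerivAt.restrictScalars ℝ
  have h3 : (ContinuousLinearMap.mul ℝ ℂ) (exp z)
      = ContinuousLinearMap.restrictScalars ℝ
        (ContinuousLinearMap.toSpanSingleton ℂ (exp z)) := by
    ext v
    simp [mul_comm]
  rw [h3]
  exact h2

lemma contDiff_exp_add (z₀ : ℂ) {n : WithTop ℕ∞} : ContDiff ℝ n (fun z => z₀ + exp z) :=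
  contDiff_const.add Complex.contDiff_exp

lemma fderiv_comp_exp {F : ℂ → ℝ} (hF : ContDiff ℝ 1 F) (z₀ z v : ℂ) :
    fderiv ℝ (fun z => F (z₀ + exp z)) z v = fderiv ℝ F (z₀ + exp z) (exp z * v) := by
  have h1 := ((hF.differentiable one_ne_zero (z₀ + exp z)).hasFDerivAt).comp z
    (hasFDerivAt_exp_add z₀ z)
  have h2 : fderiv ℝ (fun z => F (z₀ + exp z)) z
      = (fderiv ℝ F (z₀ + exp z)).comp ((ContinuousLinearMap.mul ℝ ℂ) (exp z)) := h1.fderiv
  rw [h2]
  simp

lemma fderiv_fderiv_comp_exp {F : ℂ → ℝ} (hF : ContDiff ℝ 2 F) (z₀ z v : ℂ) :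
    fderiv ℝ (fun z => fderiv ℝ (fun z => F (z₀ + exp z)) z v) z v
      = fderiv ℝ (fderiv ℝ F) (z₀ + exp z) (exp z * v) (exp z * v)
        + fderiv ℝ F (z₀ + exp z) (exp z * v * v) := by
  have h0 : (fun z => fderiv ℝ (fun z => F (z₀ + exp z)) z v)
      = (fun z => fderiv ℝ F (z₀ + exp z) (exp z * v)) := by
    funext z
    exact fderiv_comp_exp (hF.of_le (by norm_num)) z₀ z v
  rw [h0]
  have h1 : ContDiff ℝ 1 (fderiv ℝ F) := hF.fderiv_right (by norm_num)
  have h2 : HasFDerivAt (fun z => fderiv ℝ F (z₀ + exp z))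
      ((fderiv ℝ (fderiv ℝ F) (z₀ + exp z)).comp ((ContinuousLinearMap.mul ℝ ℂ) (exp z))) z :=
    ((h1.differentiable one_ne_zero (z₀ + exp z)).hasFDerivAt).comp z (hasFDerivAt_exp_add z₀ z)
  have h3 : HasFDerivAt (fun z => exp z * v)
      ((ContinuousLinearMap.mul ℝ ℂ) (exp z * v)) z := by
    have h4 : HasDerivAt (fun z => exp z * v) (exp z * v) z :=
      (Complex.hasDerivAt_exp z).mul_const v
    have h5 := h4.hasFDerivAt.restrictScalars ℝ
    have h3 : (ContinuousLinearMap.mul ℝ ℂ) (exp z * v)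
        = ContinuousLinearMap.restrictScalars ℝ
          (ContinuousLinearMap.toSpanSingleton ℂ (exp z * v)) := by
      ext v
      simp [mul_comm]
    rw [h3]
    exact h5
  have h6 := h2.clm_apply h3
  rw [h6.fderiv]
  simp [add_comm]

/-- The Laplacian in logarithmic coordinates. -/
lemma laplacian_comp_exp {F : ℂ → ℝ} (hF : ContDiff ℝ 2 F) (z₀ z : ℂ) :
    Laplacian.laplacian (fun z => F (z₀ + exp z)) z
      = ‖exp z‖ ^ 2 * Laplacian.laplacian F (z₀ + exp z) := by
  have hG : ContDiff ℝ 2 (fun z => F (z₀ + exp z)) := hF.comp (contDiff_exp_add z₀)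
  rw [laplacian_eq_fderiv' hG, fderiv_fderiv_comp_exp hF, fderiv_fderiv_comp_exp hF,
    laplacian_eq_fderiv]
  set B := fderiv ℝ (fderiv ℝ F) (z₀ + exp z) with hB
  set L := fderiv ℝ F (z₀ + exp z) with hL
  set e := exp z with he
  have e1 : e = (e.re : ℝ) • (1 : ℂ) + (e.im : ℝ) • I := by
    apply Complex.ext <;> simp
  have e2 : e * I = (-e.im : ℝ) • (1 : ℂ) + (e.re : ℝ) • I := by
    apply Complex.ext <;> simp
  have e3 : e * I * I = -e := by
    rw [mul_assoc, I_mul_I]; ring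
  have hn : ‖e‖ ^ 2 = e.re ^ 2 + e.im ^ 2 := by
    rw [← Complex.normSq_eq_norm_sq, Complex.normSq_apply]; ring
  rw [mul_one, mul_one, e3, map_neg, hn]
  have b1 : B e e = e.re ^ 2 * B 1 1 + e.re * e.im * (B 1 I + B I 1) + e.im ^ 2 * B I I := by
    conv_lhs => rw [e1]
    simp only [map_add, map_smul, add_apply, smul_apply,
      smul_eq_mul]
    ring
  have b2 : B (e * I) (e * I)
      = e.im ^ 2 * B 1 1 - e.re * e.im * (B 1 I + B I 1) + e.re ^ 2 * B I I := by
    rw [e2]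
    simp only [map_add, map_smul, add_apply, smul_apply,
      smul_eq_mul]
    ring
  rw [b1, b2]
  ring

/-- Periodicity of composition with the exponential. -/
lemma exp_pt_pi (s : ℝ) : exp (pt s π) = exp (pt s (-π)) := by
  unfold pt
  have : (s : ℂ) + (π : ℂ) * I = (s : ℂ) + ((-π : ℝ) : ℂ) * I + 2 * π * I := by
    push_cast; ring
  rw [this, Complex.exp_periodic]

end Pool.Agent.W_MP_1759d0_gt
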