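import Pool.Agent.W_MP_1759d0_gt.Energy

/-! # The weighted energy estimate on the cylinder: main inequality -/

namespace Pool.Agent.W_MP_1759d0_gt

open Filter Set MeasureTheory Complex
open scoped Topology ContDiff Real

lemma pt_re (s θ : ℝ) : (pt s θ).re = s := by simp [pt]

lemma contDiff_comp_re {w : ℝ → ℝ} (hw : ContDiff ℝ 1 w) :
    ContDiff ℝ 1 (fun z : ℂ => w z.re) :=
  hw.comp Complex.reCLM.contDiff

lemma fderiv_comp_re {w : ℝ → ℝ} (hw : ContDiff ℝ 1 w) (z v : ℂ) :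
    fderiv ℝ (fun z : ℂ => w z.re) z v = deriv w z.re * v.re := by
  have h1 := (hw.differentiable one_ne_zero z.re).hasDerivAt
  have h2 : HasFDerivAt (fun z : ℂ => z.re) Complex.reCLM z := Complex.reCLM.hasFDerivAt
  have h3 := h1.comp_hasFDerivAt z h2
  have h4 : HasFDerivAt (fun z : ℂ => w z.re) (deriv w z.re • Complex.reCLM) z := h3
  rw [h4.fderiv]
  simp

lemma I2_lin3 {f g h : ℂ → ℝ} (hf : Continuous f) (hg : Continuous g) (hh : Continuous h)
    (a b p q r : ℝ) :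
    I2 a b (fun z => p * f z + q * g z + r * h z) = p * I2 a b f + q * I2 a b g + r * I2 a b h := by
  have c1 : Continuous (fun z => p * f z) := hf.const_mul p
  have c2 : Continuous (fun z => q * g z) := hg.const_mul q
  have c3 : Continuous (fun z => r * h z) := hh.const_mul r
  have c4 : Continuous (fun z => p * f z + q * g z) := c1.add c2
  have e1 := I2_add (F := fun z => p * f z + q * g z) (G := fun z => r * h z) c4 c3 a b
  have e2 := I2_add (F := fun z => p * f z) (G := fun z => q * g z) c1 c2 a b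
  rw [I2_const_mul] at e1
  rw [I2_const_mul, I2_const_mul] at e2
  rw [e1, e2]

/-- Pointwise inequality for the divergence. -/
lemma pointwise_ineq {W N E Ws Vs Vt Ns Nt L c : ℝ}
    (hE : 0 ≤ E) (hN1 : N ^ 2 ≤ 1) (hWs : Ws ^ 2 ≤ (W / 30) ^ 2) (hNs : Ns ^ 2 * E ≤ 1)
    (hNt : Nt ^ 2 * E ≤ 1) (hL : E * L ≤ 2 * c) (hc : 0 ≤ c) :
    (2 * W * Ws * N ^ 2 * E * Vs + 2 * W ^ 2 * N * Ns * E * Vs
        - W ^ 2 * N ^ 2 * E * Vs * Vs)
      + (2 * W ^ 2 * N * Nt * E * Vt - W ^ 2 * N ^ 2 * E * Vt * Vt) + W ^ 2 * N ^ 2 * E * L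
    ≤ -(1 / 2) * (W ^ 2 * (N ^ 2 * E * (Vs ^ 2 + Vt ^ 2))) + (2 * c + 8) * W ^ 2
      + (4 / 900) * (W ^ 2 * (N ^ 2 * E)) := by
  have hNE : 0 ≤ N ^ 2 * E := by positivity
  have h1 : 2 * W * Ws * N ^ 2 * E * Vs
      ≤ (1 / 4) * (W ^ 2 * (N ^ 2 * E) * Vs ^ 2) + 4 * (Ws ^ 2 * (N ^ 2 * E)) := by
    have := mul_nonneg hNE (sq_nonneg (W * Vs / 2 - 2 * Ws))
    nlinarith
  have h2 : 4 * (Ws ^ 2 * (N ^ 2 * E)) ≤ (4 / 900) * (W ^ 2 * (N ^ 2 * E)) := by
    have := mul_le_mul_of_nonneg_right hWs hNE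
    nlinarith
  have h3 : 2 * W ^ 2 * N * Ns * E * Vs
      ≤ (1 / 4) * (W ^ 2 * (N ^ 2 * E) * Vs ^ 2) + 4 * (W ^ 2 * (Ns ^ 2 * E)) := by
    have := mul_nonneg (mul_nonneg (sq_nonneg W) hE) (sq_nonneg (N * Vs / 2 - 2 * Ns))
    nlinarith
  have h4 : 2 * W ^ 2 * N * Nt * E * Vt
      ≤ (1 / 4) * (W ^ 2 * (N ^ 2 * E) * Vt ^ 2) + 4 * (W ^ 2 * (Nt ^ 2 * E)) := by
    have := mul_nonneg (mul_nonneg (sq_nonneg W) hE) (sq_nonneg (N * Vt / 2 - 2 * Nt))
    nlinarith
  have h5 : 4 * (W ^ 2 * (Ns ^ 2 * E)) ≤ 4 * W ^ 2 := by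
    have := mul_le_mul_of_nonneg_left hNs (sq_nonneg W)
    nlinarith
  have h6 : 4 * (W ^ 2 * (Nt ^ 2 * E)) ≤ 4 * W ^ 2 := by
    have := mul_le_mul_of_nonneg_left hNt (sq_nonneg W)
    nlinarith
  have h7 : W ^ 2 * N ^ 2 * E * L ≤ 2 * c * W ^ 2 := by
    have e1 : W ^ 2 * N ^ 2 * E * L = (W ^ 2 * N ^ 2) * (E * L) := by ring
    rw [e1]
    have e2 := mul_le_mul_of_nonneg_left hL (by positivity : 0 ≤ W ^ 2 * N ^ 2)
    have e3 : W ^ 2 * N ^ 2 * (2 * c) ≤ W ^ 2 * 1 * (2 * c) := by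
      gcongr
    linarith
  have h8 : 0 ≤ W ^ 2 * (N ^ 2 * E) * Vt ^ 2 := by positivity
  nlinarith

/-- **The energy estimate.** -/
theorem energy {w : ℝ → ℝ} {N V : ℂ → ℝ} {c C₀ s₀ S : ℝ}
    (hw : ContDiff ℝ 1 w) (hw0 : ∀ s, 0 ≤ w s) (hw1 : ∀ s, w s ≤ 1)
    (hw' : ∀ s, (deriv w s) ^ 2 ≤ (w s / 30) ^ 2)
    (hJ : ∫ s in s₀..S, w s ^ 2 ≤ 30 * π)
    (hc : 0 ≤ c) (hV : ContDiff ℝ 2 V)
    (hVper : ∀ s, V (pt s π) = V (pt s (-π)))
    (hVper' : ∀ s, fderiv ℝ V (pt s π) I = fderiv ℝ V (pt s (-π)) I)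
    (hlap : ∀ z, Laplacian.laplacian V z ≤ 2 * c * Real.exp (V z))
    (hN : ContDiff ℝ 1 N) (hN0 : ∀ z, 0 ≤ N z) (hN1 : ∀ z, N z ≤ 1)
    (hNper : ∀ s, N (pt s π) = N (pt s (-π))) (hNS : ∀ θ, N (pt S θ) = 0)
    (hNs : ∀ z, fderiv ℝ N z 1 ^ 2 * Real.exp (-V z) ≤ 1)
    (hNt : ∀ z, fderiv ℝ N z I ^ 2 * Real.exp (-V z) ≤ 1)
    (hmax : ∀ s, s₀ ≤ s → ∃ θ ∈ Icc (-π) π, 0 ≤ V (pt s θ)) (hsS : s₀ ≤ S)
    (hC₀ : I1 (fun z => Real.exp (-V z) * |fderiv ℝ V z 1|) s₀ ≤ C₀) :
    I2 s₀ S (fun z => w z.re ^ 2 * (N z ^ 2 * Real.exp (-V z)))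
      ≤ 2 * ((4 * π + 32 * π ^ 3 + 8 * π ^ 3 * (4 * c + 16)) * (30 * π) + 8 * π ^ 2 * C₀) := by
  have hpi := Real.pi_pos
  have hV1 : ContDiff ℝ 1 V := hV.of_le (by norm_num)
  have hW : ContDiff ℝ 1 (fun z : ℂ => w z.re) := contDiff_comp_re hw
  have hVs : ContDiff ℝ 1 (fun z => fderiv ℝ V z 1) := contDiff_fderiv_apply hV 1
  have hVt : ContDiff ℝ 1 (fun z => fderiv ℝ V z I) := contDiff_fderiv_apply hV I
  have hexp : ContDiff ℝ 1 (fun z => Real.exp (-V z)) := hV1.neg.exp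
  -- continuity facts
  have cW := hW.continuous
  have cN := hN.continuous
  have cE := hexp.continuous
  have cVs := hVs.continuous
  have cVt := hVt.continuous
  set X : ℂ → ℝ := fun z => w z.re * w z.re * (N z * N z) * Real.exp (-V z) * fderiv ℝ V z 1
    with hXdef
  set Z : ℂ → ℝ := fun z => w z.re * w z.re * (N z * N z) * Real.exp (-V z) * fderiv ℝ V z I
    with hZdef
  have hX : ContDiff ℝ 1 X := (((hW.mul hW).mul (hN.mul hN)).mul hexp).mul hVs
  have hZ : ContDiff ℝ 1 Z := (((hW.mul hW).mul (hN.mul hN)).mul hexp).mul hVt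
  have hZper : ∀ s, Z (pt s π) = Z (pt s (-π)) := by
    intro s
    simp only [hZdef, pt_re, hVper, hVper', hNper]
  set A : ℝ := I2 s₀ S (fun z => w z.re ^ 2 * (N z ^ 2 * Real.exp (-V z)
    * (fderiv ℝ V z 1 ^ 2 + fderiv ℝ V z I ^ 2))) with hA
  set B : ℝ := I2 s₀ S (fun z => w z.re ^ 2 * (N z ^ 2 * Real.exp (-V z))) with hB
  set J : ℝ := ∫ s in s₀..S, w s ^ 2 with hJdef
  have hJ0 : 0 ≤ J := intervalIntegral.integral_nonneg hsS (fun _ _ => sq_nonneg _)
  have cA : Continuous (fun z => w z.re ^ 2 * (N z ^ 2 * Real.exp (-V z)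
    * (fderiv ℝ V z 1 ^ 2 + fderiv ℝ V z I ^ 2))) := by fun_prop
  have cB : Continuous (fun z => w z.re ^ 2 * (N z ^ 2 * Real.exp (-V z))) := by fun_prop
  have cW2 : Continuous (fun z : ℂ => w z.re ^ 2) := by fun_prop
  have hI2W : I2 s₀ S (fun z => w z.re ^ 2) = 2 * π * J := by
    unfold I2 I1
    simp only [pt_re, intervalIntegral.integral_const, smul_eq_mul]
    rw [intervalIntegral.integral_const_mul]
    ring
  -- the divergence identity
  have hdiv := I2_div hX hZ hZper s₀ S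
  have hXS : I1 X S = 0 := by
    unfold I1
    simp [hXdef, hNS]
  rw [hXS, zero_sub] at hdiv
  have hXs : -C₀ ≤ -(I1 X s₀) := by
    have h1 : I1 X s₀ ≤ I1 (fun z => Real.exp (-V z) * |fderiv ℝ V z 1|) s₀ := by
      apply I1_mono hX.continuous (cE.mul cVs.abs)
      intro θ _
      simp only [hXdef]
      have hE := Real.exp_pos (-V (pt s₀ θ))
      have h3 : w (pt s₀ θ).re * w (pt s₀ θ).re * (N (pt s₀ θ) * N (pt s₀ θ)) ≤ 1 := by
        have a1 := hw0 (pt s₀ θ).re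
        have a2 := hw1 (pt s₀ θ).re
        have a3 := hN0 (pt s₀ θ)
        have a4 := hN1 (pt s₀ θ)
        have b1 : w (pt s₀ θ).re * w (pt s₀ θ).re ≤ 1 := mul_le_one₀ a2 a1 a2
        have b2 : N (pt s₀ θ) * N (pt s₀ θ) ≤ 1 := mul_le_one₀ a4 a3 a4
        exact mul_le_one₀ b1 (mul_nonneg a3 a3) b2
      have h4 : 0 ≤ w (pt s₀ θ).re * w (pt s₀ θ).re * (N (pt s₀ θ) * N (pt s₀ θ)) := by
        have a1 := hw0 (pt s₀ θ).re
        have a3 := hN0 (pt s₀ θ)
        positivity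
      have h5 := le_abs_self (fderiv ℝ V (pt s₀ θ) 1)
      have h6 := abs_nonneg (fderiv ℝ V (pt s₀ θ) 1)
      calc w (pt s₀ θ).re * w (pt s₀ θ).re * (N (pt s₀ θ) * N (pt s₀ θ))
            * Real.exp (-V (pt s₀ θ)) * fderiv ℝ V (pt s₀ θ) 1
          ≤ w (pt s₀ θ).re * w (pt s₀ θ).re * (N (pt s₀ θ) * N (pt s₀ θ))
            * Real.exp (-V (pt s₀ θ)) * |fderiv ℝ V (pt s₀ θ) 1| :=
            mul_le_mul_of_nonneg_left h5 (mul_nonneg h4 hE.le)
        _ = (w (pt s₀ θ).re * w (pt s₀ θ).re * (N (pt s₀ θ) * N (pt s₀ θ)))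
            * (Real.exp (-V (pt s₀ θ)) * |fderiv ℝ V (pt s₀ θ) 1|) := by ring
        _ ≤ 1 * (Real.exp (-V (pt s₀ θ)) * |fderiv ℝ V (pt s₀ θ) 1|) :=
            mul_le_mul_of_nonneg_right h3 (mul_nonneg hE.le h6)
        _ = _ := one_mul _
    linarith
  -- pointwise bound of the divergence
  have hub : I2 s₀ S (fun z => fderiv ℝ X z 1 + fderiv ℝ Z z I)
      ≤ -(1 / 2) * A + (2 * c + 8) * (2 * π * J) + (4 / 900) * B := by
    have h1 : I2 s₀ S (fun z => fderiv ℝ X z 1 + fderiv ℝ Z z I)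
        ≤ I2 s₀ S (fun z => -(1 / 2) * (w z.re ^ 2 * (N z ^ 2 * Real.exp (-V z)
            * (fderiv ℝ V z 1 ^ 2 + fderiv ℝ V z I ^ 2))) + (2 * c + 8) * (w z.re ^ 2)
            + (4 / 900) * (w z.re ^ 2 * (N z ^ 2 * Real.exp (-V z)))) := by
      apply I2_mono _ _ hsS
      · intro s _ θ _
        set z := pt s θ
        have dX := fderiv_quad hW hN hV1 hVs z 1
        have dZ := fderiv_quad hW hN hV1 hVt z I
        have dX' : fderiv ℝ X z 1 = _ := dX
        have dZ' : fderiv ℝ Z z I = _ := dZ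
        rw [dX', dZ', fderiv_comp_re hw, fderiv_comp_re hw]
        simp only [Complex.one_re, Complex.I_re, mul_one, mul_zero, zero_mul]
        have hE := Real.exp_pos (-V z)
        have hL : Real.exp (-V z) * Laplacian.laplacian V z ≤ 2 * c := by
          have h2 := mul_le_mul_of_nonneg_left (hlap z) hE.le
          have h3 : Real.exp (-V z) * (2 * c * Real.exp (V z)) = 2 * c := by
            have : Real.exp (-V z) * Real.exp (V z) = 1 := by
              rw [← Real.exp_add]; simp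
            calc Real.exp (-V z) * (2 * c * Real.exp (V z))
                = 2 * c * (Real.exp (-V z) * Real.exp (V z)) := by ring
              _ = 2 * c := by rw [this, mul_one]
          linarith
        rw [laplacian_eq_fderiv' hV] at hL
        have hNN : N z ^ 2 ≤ 1 := by
          have a3 := hN0 z
          have a4 := hN1 z
          nlinarith
        have key := pointwise_ineq (W := w z.re) (N := N z) (E := Real.exp (-V z))
          (Ws := deriv w z.re) (Vs := fderiv ℝ V z 1) (Vt := fderiv ℝ V z I)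
          (Ns := fderiv ℝ N z 1) (Nt := fderiv ℝ N z I) (c := c)
          hE.le hNN (hw' _) (hNs z) (hNt z) hL hc
        refine le_trans (le_of_eq ?_) key
        ring
      · exact (continuous_fderiv_apply hX 1).add (continuous_fderiv_apply hZ I)
      · exact ((cA.const_mul _).add (cW2.const_mul _)).add (cB.const_mul _)
    have h2 := I2_lin3 cA cW2 cB s₀ S (-(1 / 2)) (2 * c + 8) (4 / 900)
    rw [hI2W] at h2
    exact h1.trans (le_of_eq h2)
  rw [hdiv] at hub
  have hAle : A ≤ (4 * c + 16) * (2 * π * J) + (8 / 900) * B + 2 * C₀ := by linarith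
  -- Poincaré
  have hBle : B ≤ (4 * π + 32 * π ^ 3) * J + 4 * π ^ 2 * A := by
    have cC : Continuous (fun z => N z ^ 2 * Real.exp (-V z) * fderiv ℝ V z I ^ 2) := by fun_prop
    have cD : Continuous (fun z => N z ^ 2 * Real.exp (-V z)) := by fun_prop
    have h1 : B = ∫ s in s₀..S, w s ^ 2 * I1 (fun z => N z ^ 2 * Real.exp (-V z)) s := by
      rw [hB]
      unfold I2
      apply intervalIntegral.integral_congr
      intro s _
      simp only [I1, pt_re]
      rw [intervalIntegral.integral_const_mul]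
    have h2 : ∫ s in s₀..S, w s ^ 2 * I1 (fun z => N z ^ 2 * Real.exp (-V z)) s
        ≤ ∫ s in s₀..S, ((4 * π + 32 * π ^ 3) * w s ^ 2
          + 4 * π ^ 2 * (w s ^ 2 * I1 (fun z => N z ^ 2 * Real.exp (-V z)
            * fderiv ℝ V z I ^ 2) s)) := by
      apply intervalIntegral.integral_mono_on hsS
      · exact ((hw.continuous.pow 2).mul (continuous_I1 cD)).intervalIntegrable _ _
      · exact (((hw.continuous.pow 2).const_mul _).add
          (((hw.continuous.pow 2).mul (continuous_I1 cC)).const_mul _)).intervalIntegrable _ _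
      · intro s hs
        have h3 := poincare_cyl hN hV1 hN0 hN1 hNt (hmax s hs.1)
        have h4 := mul_le_mul_of_nonneg_left h3 (sq_nonneg (w s))
        linarith
    rw [intervalIntegral.integral_add, intervalIntegral.integral_const_mul,
      intervalIntegral.integral_const_mul] at h2
    · have h5 : ∫ s in s₀..S, w s ^ 2 * I1 (fun z => N z ^ 2 * Real.exp (-V z)
            * fderiv ℝ V z I ^ 2) s ≤ A := by
        rw [hA]
        unfold I2
        apply intervalIntegral.integral_mono_on hsS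
        · exact ((hw.continuous.pow 2).mul (continuous_I1 cC)).intervalIntegrable _ _
        · exact (continuous_I1 cA).intervalIntegrable _ _
        · intro s _
          simp only [I1, pt_re]
          rw [← intervalIntegral.integral_const_mul]
          apply intervalIntegral.integral_mono_on neg_pi_le_pi
          · exact (continuous_const.mul (continuous_comp_pt_snd cC s)).intervalIntegrable _ _
          · exact (continuous_const.mul (continuous_comp_pt_snd (X := fun z =>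
              (N z ^ 2 * Real.exp (-V z)
              * (fderiv ℝ V z 1 ^ 2 + fderiv ℝ V z I ^ 2))) (by fun_prop) s)).intervalIntegrable _ _
          · intro θ _
            apply mul_le_mul_of_nonneg_left _ (sq_nonneg _)
            apply mul_le_mul_of_nonneg_left _ (by positivity)
            linarith [sq_nonneg (fderiv ℝ V (pt s θ) 1)]
      rw [h1]
      have h6 := mul_le_mul_of_nonneg_left h5 (by positivity : 0 ≤ 4 * π ^ 2)
      linarith
    · exact ((hw.continuous.pow 2).const_mul _).intervalIntegrable _ _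
    · exact (((hw.continuous.pow 2).mul (continuous_I1 cC)).const_mul _).intervalIntegrable _ _
  -- conclusion
  have hB0 : 0 ≤ B := by
    rw [hB]
    unfold I2
    apply intervalIntegral.integral_nonneg hsS
    intro s _
    apply I1_nonneg
    intro z
    positivity
  have hpi2 : π ^ 2 ≤ 10 := by
    have := Real.pi_lt_d2
    nlinarith
  have h7 : 4 * π ^ 2 * A ≤ 4 * π ^ 2 * ((4 * c + 16) * (2 * π * J) + (8 / 900) * B + 2 * C₀) :=
    mul_le_mul_of_nonneg_left hAle (by positivity)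
  have h8 : 4 * π ^ 2 * ((8 / 900) * B) ≤ (1 / 2) * B := by
    nlinarith
  have h9 : (4 * π + 32 * π ^ 3 + 8 * π ^ 3 * (4 * c + 16)) * J
      ≤ (4 * π + 32 * π ^ 3 + 8 * π ^ 3 * (4 * c + 16)) * (30 * π) :=
    mul_le_mul_of_nonneg_left hJ (by positivity)
  nlinarith

end Pool.Agent.W_MP_1759d0_gt
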