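import Pool.Agent.W_MP_1759d0_gt.LogPolar

/-! # Mean value inequalities -/

namespace Pool.Agent.W_MP_1759d0_gt

open Filter Set MeasureTheory Complex
open scoped Topology ContDiff Real

lemma exp_pt (s θ : ℝ) : exp (pt s θ) = (Real.exp s : ℂ) * exp (θ * I) := by
  unfold pt
  rw [Complex.exp_add, Complex.ofReal_exp]

lemma norm_exp_pt (s θ : ℝ) : ‖exp (pt s θ)‖ = Real.exp s := by
  rw [Complex.norm_exp]
  simp [pt]

/-- circle integral -/
noncomputable def circ (F : ℂ → ℝ) (z₀ : ℂ) (r : ℝ) : ℝ :=
  ∫ θ in (-π)..π, F (z₀ + (r : ℂ) * exp (θ * I))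

lemma continuous_circ {F : ℂ → ℝ} (hF : Continuous F) (z₀ : ℂ) : Continuous (circ F z₀) := by
  unfold circ
  apply intervalIntegral.continuous_parametric_intervalIntegral_of_continuous'
    (f := fun (r : ℝ) (θ : ℝ) => F (z₀ + (r : ℂ) * exp (θ * I)))
  apply hF.comp
  fun_prop

lemma circ_zero (F : ℂ → ℝ) (z₀ : ℂ) : circ F z₀ 0 = 2 * π * F z₀ := by
  simp only [circ, ofReal_zero, zero_mul, add_zero, intervalIntegral.integral_const, smul_eq_mul]
  ring

lemma circ_exp (F : ℂ → ℝ) (z₀ : ℂ) (s : ℝ) :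
    circ F z₀ (Real.exp s) = I1 (fun z => F (z₀ + exp z)) s := by
  unfold circ I1
  simp only [exp_pt]

lemma integral_exp_two (a b : ℝ) :
    ∫ s in a..b, Real.exp s ^ 2 = (Real.exp b ^ 2 - Real.exp a ^ 2) / 2 := by
  have h : ∀ x : ℝ, HasDerivAt (fun x => Real.exp x ^ 2 / 2) (Real.exp x ^ 2) x := by
    intro x
    have h1 : HasDerivAt (fun x => Real.exp x * Real.exp x / 2)
        ((Real.exp x * Real.exp x + Real.exp x * Real.exp x) / 2) x :=
      ((Real.hasDerivAt_exp x).mul (Real.hasDerivAt_exp x)).div_const 2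
    have e1 : (fun x => Real.exp x ^ 2 / 2) = (fun x => Real.exp x * Real.exp x / 2) := by
      funext y
      ring
    have e2 : Real.exp x ^ 2 = (Real.exp x * Real.exp x + Real.exp x * Real.exp x) / 2 := by
      ring
    rw [e1, e2]
    exact h1
  rw [intervalIntegral.integral_eq_sub_of_hasDerivAt (fun x _ => h x)
    ((Real.continuous_exp.pow 2).intervalIntegrable _ _)]
  ring

/-- The mean value inequality on circles. -/
theorem circ_ge {F : ℂ → ℝ} (hF : ContDiff ℝ 2 F) {k : ℝ}
    (hk : ∀ z, -k ≤ Laplacian.laplacian F z) (z₀ : ℂ) (b : ℝ) :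
    2 * π * F z₀ - π / 2 * k * Real.exp b ^ 2 ≤ circ F z₀ (Real.exp b) := by
  set G : ℂ → ℝ := fun z => F (z₀ + exp z) with hG
  have hG2 : ContDiff ℝ 2 G := hF.comp (contDiff_exp_add z₀)
  have hG1 : ContDiff ℝ 1 G := hG2.of_le (by norm_num)
  have hF1 : ContDiff ℝ 1 F := hF.of_le (by norm_num)
  -- first derivative integrals
  set H : ℝ → ℝ := I1 (fun z => fderiv ℝ G z 1) with hH
  have hX : ContDiff ℝ 1 (fun z => fderiv ℝ G z 1) := contDiff_fderiv_apply hG2 1
  have hZ : ContDiff ℝ 1 (fun z => fderiv ℝ G z I) := contDiff_fderiv_apply hG2 I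
  have hper : ∀ s, (fun z => fderiv ℝ G z I) (pt s π) = (fun z => fderiv ℝ G z I) (pt s (-π)) := by
    intro s
    simp only [hG]
    rw [fderiv_comp_exp hF1, fderiv_comp_exp hF1, exp_pt_pi]
  have hHdiff : ∀ a c : ℝ, a ≤ c →
      -(π * k * (Real.exp c ^ 2 - Real.exp a ^ 2)) ≤ H c - H a := by
    intro a c hac
    rw [hH, ← I2_div hX hZ hper a c]
    have h1 : I2 a c (fun z => -k * ‖exp z‖ ^ 2)
        ≤ I2 a c (fun z => fderiv ℝ (fun z => fderiv ℝ G z 1) z 1
          + fderiv ℝ (fun z => fderiv ℝ G z I) z I) := by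
      apply I2_mono _ _ hac
      · intro s _ θ _
        rw [← laplacian_eq_fderiv' hG2, hG, laplacian_comp_exp hF, mul_comm]
        exact mul_le_mul_of_nonneg_left (hk _) (by positivity)
      · fun_prop
      · exact (continuous_fderiv_apply hX 1).add (continuous_fderiv_apply hZ I)
    refine le_trans (le_of_eq ?_) h1
    rw [I2_const_mul]
    have h2 : I2 a c (fun z => ‖exp z‖ ^ 2) = ∫ s in a..c, 2 * π * Real.exp s ^ 2 := by
      unfold I2 I1
      apply intervalIntegral.integral_congr
      intro s _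
      simp only [norm_exp_pt, intervalIntegral.integral_const, smul_eq_mul]
      ring
    rw [h2, intervalIntegral.integral_const_mul, integral_exp_two]
    ring
  -- the limit of `H` at `-∞`
  have hHlim : Tendsto H atBot (𝓝 0) := by
    have h1 : ∀ s, H s = ∫ θ in (-π)..π, fderiv ℝ F (z₀ + (Real.exp s : ℂ) * exp (θ * I))
        ((Real.exp s : ℂ) * exp (θ * I)) := by
      intro s
      simp only [hH, I1, hG]
      apply intervalIntegral.integral_congr
      intro θ _
      simp only
      rw [fderiv_comp_exp hF1, exp_pt, mul_one]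
    have h2 : Continuous (fun r : ℝ => ∫ θ in (-π)..π, fderiv ℝ F (z₀ + (r : ℂ) * exp (θ * I))
        ((r : ℂ) * exp (θ * I))) := by
      apply intervalIntegral.continuous_parametric_intervalIntegral_of_continuous'
        (f := fun (r : ℝ) (θ : ℝ) => fderiv ℝ F (z₀ + (r : ℂ) * exp (θ * I))
          ((r : ℂ) * exp (θ * I)))
      have h3 := hF1.continuous_fderiv one_ne_zero
      apply Continuous.clm_apply
      · apply h3.comp
        fun_prop
      · fun_prop
    have h3 := (h2.tendsto 0).comp Real.tendsto_exp_atBot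
    simp only [ofReal_zero, zero_mul, map_zero, intervalIntegral.integral_zero] at h3
    exact h3.congr (fun s => (h1 s).symm)
  have hsq : Tendsto (fun a : ℝ => Real.exp a ^ 2) atBot (𝓝 0) := by
    have := Real.tendsto_exp_atBot.pow 2
    simpa using this
  have hHge : ∀ c, -(π * k * Real.exp c ^ 2) ≤ H c := by
    intro c
    have h1 : Tendsto (fun a => -(π * k * (Real.exp c ^ 2 - Real.exp a ^ 2)) + H a) atBot
        (𝓝 (-(π * k * (Real.exp c ^ 2 - 0)) + 0)) :=
      (((tendsto_const_nhds.sub hsq).const_mul _).neg).add hHlim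
    have h2 : ∀ᶠ a in atBot, -(π * k * (Real.exp c ^ 2 - Real.exp a ^ 2)) + H a ≤ H c := by
      filter_upwards [eventually_le_atBot c] with a ha
      linarith [hHdiff a c ha]
    have h3 := le_of_tendsto h1 h2
    simpa using h3
  -- integrate once more
  have hMdiff : ∀ a c : ℝ, a ≤ c →
      -(π / 2 * k * (Real.exp c ^ 2 - Real.exp a ^ 2)) ≤ I1 G c - I1 G a := by
    intro a c hac
    have h1 := I2_div hG1 (contDiff_const (c := (0:ℝ))) (fun s => rfl) a c
    rw [← h1]
    have h2 : I2 a c (fun z => fderiv ℝ G z 1 + fderiv ℝ (fun _ : ℂ => (0:ℝ)) z I)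
        = ∫ s in a..c, H s := by
      unfold I2
      apply intervalIntegral.integral_congr
      intro s _
      simp [hH]
    rw [h2]
    have h3 : ∫ s in a..c, -(π * k) * Real.exp s ^ 2 ≤ ∫ s in a..c, H s := by
      apply intervalIntegral.integral_mono_on hac
      · exact (continuous_const.mul (Real.continuous_exp.pow 2)).intervalIntegrable _ _
      · exact (continuous_I1 (continuous_fderiv_apply hG1 1)).intervalIntegrable _ _
      · intro s _
        linarith [hHge s]
    refine le_trans (le_of_eq ?_) h3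
    rw [intervalIntegral.integral_const_mul, integral_exp_two]
    ring
  have hMlim : Tendsto (I1 G) atBot (𝓝 (2 * π * F z₀)) := by
    have h3 := ((continuous_circ hF1.continuous z₀).tendsto 0).comp Real.tendsto_exp_atBot
    rw [circ_zero] at h3
    exact h3.congr (fun s => circ_exp F z₀ s)
  rw [circ_exp]
  have h1 : Tendsto (fun a => -(π / 2 * k * (Real.exp b ^ 2 - Real.exp a ^ 2)) + I1 G a) atBot
      (𝓝 (-(π / 2 * k * (Real.exp b ^ 2 - 0)) + 2 * π * F z₀)) :=
    (((tendsto_const_nhds.sub hsq).const_mul _).neg).add hMlim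
  have h2 : ∀ᶠ a in atBot, -(π / 2 * k * (Real.exp b ^ 2 - Real.exp a ^ 2)) + I1 G a ≤ I1 G b := by
    filter_upwards [eventually_le_atBot b] with a ha
    linarith [hMdiff a b ha]
  have h3 := le_of_tendsto h1 h2
  linarith

/-- A subharmonic function takes on each circle a value at least its value at the centre. -/
theorem exists_ge_center {F : ℂ → ℝ} (hF : ContDiff ℝ 2 F)
    (hk : ∀ z, 0 ≤ Laplacian.laplacian F z) (z₀ : ℂ) (s : ℝ) :
    ∃ θ ∈ Icc (-π) π, F z₀ ≤ F (z₀ + exp (pt s θ)) := by
  by_contra hcon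
  push Not at hcon
  have h1 := circ_ge hF (k := 0) (by simpa using hk) z₀ s
  rw [circ_exp] at h1
  have hc : Continuous (fun z => F (z₀ + exp z)) := by
    have := hF.continuous
    fun_prop
  have h2 : I1 (fun z => F (z₀ + exp z)) s < ∫ θ in (-π)..π, F z₀ := by
    unfold I1
    apply intervalIntegral.integral_lt_integral_of_continuousOn_of_le_of_exists_lt
      (by linarith [Real.pi_pos])
    · exact (continuous_comp_pt_snd hc s).continuousOn
    · exact continuousOn_const
    · intro θ hθ
      exact (hcon θ ⟨hθ.1.le, hθ.2⟩).le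
    · exact ⟨0, ⟨by linarith [Real.pi_pos], Real.pi_pos.le⟩,
        hcon 0 ⟨by linarith [Real.pi_pos], Real.pi_pos.le⟩⟩
  simp only [intervalIntegral.integral_const, smul_eq_mul] at h2
  nlinarith

/-- The mean value inequality on discs, in polar coordinates. -/
theorem disc_polar_ge {F : ℂ → ℝ} (hF : ContDiff ℝ 2 F) {k : ℝ}
    (hk : ∀ z, -k ≤ Laplacian.laplacian F z) (z₀ : ℂ) :
    π * F z₀ - π / 8 * k ≤ ∫ r in (0:ℝ)..1, r * circ F z₀ r := by
  have h1 : ∫ r in (0:ℝ)..1, (2 * π * F z₀ * r - π / 2 * k * r ^ 3)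
      ≤ ∫ r in (0:ℝ)..1, r * circ F z₀ r := by
    apply intervalIntegral.integral_mono_on zero_le_one
    · exact Continuous.intervalIntegrable (by fun_prop) _ _
    · exact (continuous_id.mul (continuous_circ hF.continuous z₀)).intervalIntegrable _ _
    · intro r hr
      rcases eq_or_lt_of_le hr.1 with h | h
      · simp [← h]
      · have h2 := circ_ge hF hk z₀ (Real.log r)
        rw [Real.exp_log h] at h2
        nlinarith [mul_le_mul_of_nonneg_left h2 h.le]
  refine le_trans (le_of_eq ?_) h1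
  rw [intervalIntegral.integral_sub, intervalIntegral.integral_const_mul,
    intervalIntegral.integral_const_mul, integral_id, integral_pow]
  · norm_num
    ring
  · exact Continuous.intervalIntegrable (by fun_prop) _ _
  · exact Continuous.intervalIntegrable (by fun_prop) _ _

end Pool.Agent.W_MP_1759d0_gt
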